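import Pool.Agent.H44.GW.Edges

/-!
# Graph wreath products
-/

set_option autoImplicit false

namespace Pool.Agent.H44.GW

open Pool.Agent.H98.FJ

section shift

variable {V : Type} (ρ : Multiplicative ℤ →* Equiv.Perm V)

/-- the action of an integer -/
def sh (k : ℤ) : Equiv.Perm V := ρ (Multiplicative.ofAdd k)

theorem sh_add (k l : ℤ) (v : V) : sh ρ (k + l) v = sh ρ k (sh ρ l v) := by
  rw [sh, ofAdd_add, map_mul]
  rfl

theorem sh_zero (v : V) : sh ρ 0 v = v := by
  rw [sh, ofAdd_zero, map_one]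
  rfl

theorem sh_neg_iff (k : ℤ) (v w : V) : sh ρ k v = w ↔ v = sh ρ (-k) w := by
  constructor
  · rintro rfl
    rw [← sh_add, neg_add_cancel, sh_zero]
  · rintro rfl
    rw [← sh_add, add_neg_cancel, sh_zero]

/-- a shift length which separates the end points of an edge -/
theorem exists_sep {a b : V} (hab : a ≠ b) : ∃ M : ℕ, M ≠ 0 ∧ ∀ k : ℤ, sh ρ (M * k) a ≠ b := by
  by_cases h : ∃ m : ℤ, sh ρ m a = b
  · obtain ⟨m, hm⟩ := h
    by_cases hfin : ∃ q : ℤ, q ≠ 0 ∧ sh ρ q a = a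
    · obtain ⟨q, hq, hqa⟩ := hfin
      have hmul : ∀ n : ℕ, sh ρ (q * n) a = a := by
        intro n
        induction n with
        | zero => rw [Nat.cast_zero, mul_zero, sh_zero]
        | succ n ih => rw [Nat.cast_succ, mul_add, mul_one, sh_add, hqa, ih]
      have hmulZ : ∀ k : ℤ, sh ρ (q * k) a = a := by
        intro k
        rcases Int.natAbs_eq k with h1 | h1
        · rw [h1]
          exact hmul _
        · rw [h1, mul_neg, ← (sh_neg_iff ρ (q * (k.natAbs : ℤ)) a a).1 (hmul _)]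
      refine ⟨q.natAbs, Int.natAbs_ne_zero.2 hq, ?_⟩
      intro k hk
      apply hab
      rcases Int.natAbs_eq q with h1 | h1
      · rw [← h1, hmulZ] at hk
        exact hk
      · have h2 : ((q.natAbs : ℕ) : ℤ) = -q := by omega
        rw [h2, neg_mul, ← mul_neg, hmulZ] at hk
        exact hk
    · refine ⟨m.natAbs + 1, Nat.succ_ne_zero _, ?_⟩
      intro k hk
      have h1 : sh ρ (((m.natAbs + 1 : ℕ) : ℤ) * k - m) a = a := by
        rw [sub_eq_neg_add, sh_add, hk, ← hm, ← sh_add, neg_add_cancel, sh_zero]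
      have h2 : ((m.natAbs + 1 : ℕ) : ℤ) * k - m = 0 := by
        by_contra h3
        exact hfin ⟨_, h3, h1⟩
      have h3 : m = ((m.natAbs + 1 : ℕ) : ℤ) * k := by omega
      have h4 : m.natAbs = (m.natAbs + 1) * k.natAbs := by
        conv_lhs => rw [h3]
        rw [Int.natAbs_mul, Int.natAbs_natCast]
      have h5 : k = 0 := by
        by_contra h6
        have h7 : 1 ≤ k.natAbs := Nat.one_le_iff_ne_zero.2 (Int.natAbs_ne_zero.2 h6)
        have h8 := Nat.mul_le_mul_left (m.natAbs + 1) h7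
        rw [← h4] at h8
        omega
      rw [h5, mul_zero] at h3
      apply hab
      rw [← hm, h3, sh_zero]
  · refine ⟨1, one_ne_zero, ?_⟩
    intro k hk
    exact h ⟨_, hk⟩

end shift

namespace InheritsExt

variable {C : (G : Type) → [Group G] → Prop} (hC : InheritsExt C)
include hC

variable {H : Type} [Group H]

/-- finitely many orbits of edges, the infinite cyclic group -/
theorem W_finZ {V : Type} {r : V → V → Prop} {ρ : Multiplicative ℤ →* Equiv.Perm V}
    (hne : ∀ v w, r v w → v ≠ w) (hH : C H) (t : Finset {p : V × V // r p.1 p.2}) :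
    C (W H (rt ρ t) ρ (rt_inv ρ t)) := by
  classical
  have hsep : ∀ p : {p : V × V // r p.1 p.2}, ∃ M : ℕ, M ≠ 0 ∧
      ∀ k : ℤ, sh ρ (M * k) p.1.1 ≠ p.1.2 := fun p => exists_sep ρ (hne _ _ p.2)
  choose m hm0 hm using hsep
  let M : ℕ := ∏ p ∈ t, m p
  have hM : M ≠ 0 := Finset.prod_ne_zero_iff.2 (fun p _ => hm0 p)
  have hM2 : ∀ p ∈ t, ∀ k : ℤ, sh ρ (M * k) p.1.1 ≠ p.1.2 := by
    intro p hp k
    obtain ⟨N, hN⟩ : m p ∣ M := Finset.dvd_prod_of_mem m hp
    rw [hN]
    push_cast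
    rw [mul_assoc]
    exact hm p _
  refine hC.W_index _ (mulZ M) (mulZ_injective hM) (mulZ_index hM) ?_
  have hinv : ∀ (g : Multiplicative ℤ), ∃ l : ℤ, ∀ v, (ρ.comp (mulZ M)) g v = sh ρ (M * l) v := by
    intro g
    obtain ⟨l, rfl⟩ := Multiplicative.ofAdd.surjective g
    refine ⟨l, fun v => ?_⟩
    change ρ (mulZ M (Multiplicative.ofAdd l)) v = _
    rw [mulZ_apply, mul_comm]
    rfl
  refine hC.W_colour hC.int hH _ (K := t → Fin M → Prop)
    (fun v p j => ∃ k : ℤ, v = sh ρ ((j : ℕ) + M * k) p.1.1.1) ?_ ?_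
  · intro g v
    obtain ⟨l, hl⟩ := hinv g
    funext p j
    rw [hl]
    apply propext
    constructor
    · rintro ⟨k, hk⟩
      refine ⟨k - l, ?_⟩
      rw [sh_neg_iff] at hk
      rw [hk, ← sh_add]
      congr 2
      ring
    · rintro ⟨k, hk⟩
      refine ⟨k + l, ?_⟩
      rw [hk, ← sh_add]
      congr 2
      ring
  · rintro v w ⟨p, hp, g, rfl, rfl⟩ hvw
    obtain ⟨n, rfl⟩ := Multiplicative.ofAdd.surjective g
    have hMpos : (0 : ℤ) < M := by exact_mod_cast Nat.pos_of_ne_zero hM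
    have hj : (n % (M : ℤ)).toNat < M := by
      have h1 := Int.emod_nonneg n hMpos.ne'
      have h2 := Int.emod_lt_of_pos n hMpos
      omega
    have hj2 : ((n % (M : ℤ)).toNat : ℤ) = n % (M : ℤ) :=
      Int.toNat_of_nonneg (Int.emod_nonneg n hMpos.ne')
    have h1 := congrFun (congrFun hvw ⟨p, hp⟩) ⟨(n % (M : ℤ)).toNat, hj⟩
    have h2 : ∃ k : ℤ, sh ρ n p.1.1 = sh ρ (((n % (M : ℤ)).toNat : ℕ) + M * k) p.1.1 := by
      refine ⟨n / M, ?_⟩
      rw [hj2, Int.emod_add_mul_ediv]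
    have h3 : ∃ k : ℤ, sh ρ n p.1.2 = sh ρ (((n % (M : ℤ)).toNat : ℕ) + M * k) p.1.1 :=
      h1.mp h2
    obtain ⟨k, hk⟩ := h3
    rw [sh_neg_iff, ← sh_add, hj2] at hk
    refine hM2 p hp (k - n / M) ?_
    rw [hk]
    congr 2
    have h4 := Int.emod_add_mul_ediv n M
    linear_combination -h4

/-- **Graph wreath products.** -/
theorem W_mem {V : Type} {r : V → V → Prop} {G : Type} [Group G] {ρ : G →* Equiv.Perm V}
    (hr : ∀ g v w, r v w → r (ρ g v) (ρ g w)) (hne : ∀ v w, r v w → v ≠ w) (hH : C H)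
    (hG : C G) : C (W H r ρ hr) :=
  hC.W_cyclic hr hG (fun _ => hC.W_edges _ (fun t => hC.W_finZ hne hH t))

end InheritsExt

end Pool.Agent.H44.GW
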