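import Pool.Agent.H44.GW.Reg

/-!
# Extensions of the infinite cyclic group by locally finite groups
-/

set_option autoImplicit false

namespace Pool.Agent.H44.GW

open Pool.Agent.H98.FJ

/-- every finite subset lies in a finite subgroup -/
def LF (A : Type) [Group A] : Prop :=
  ∀ s : Set A, s.Finite → ∃ K : Subgroup A, Finite K ∧ s ⊆ K

section liftZ

variable {A K : Type} [Group A] [Group K] (φ : Multiplicative ℤ →* MulAut A) (f : A →* K) (x : K)
  (h : ∀ a, x * f a = f (φ (Multiplicative.ofAdd 1) a) * x)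
include h

theorem liftZ_aux (g : Multiplicative ℤ) (a : A) :
    zpowersHom K x g * f a = f (φ g a) * zpowersHom K x g := by
  let S : Subgroup (Multiplicative ℤ) :=
    { carrier := {g | ∀ a, zpowersHom K x g * f a = f (φ g a) * zpowersHom K x g}
      one_mem' := fun a => by simp
      mul_mem' := by
        intro g g' hg hg' a
        change zpowersHom K x (g * g') * f a = f (φ (g * g') a) * zpowersHom K x (g * g')
        rw [map_mul, map_mul, mul_assoc, hg' a, ← mul_assoc, hg (φ g' a), mul_assoc]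
        rfl
      inv_mem' := by
        intro g hg a
        change zpowersHom K x g⁻¹ * f a = f (φ g⁻¹ a) * zpowersHom K x g⁻¹
        have h1 := hg (φ g⁻¹ a)
        rw [← MulAut.mul_apply, ← map_mul, mul_inv_cancel, map_one, MulAut.one_apply] at h1
        rw [map_inv, inv_mul_eq_iff_eq_mul, ← mul_assoc, h1, mul_inv_cancel_right] }
  have h1 : Multiplicative.ofAdd (1 : ℤ) ∈ S := by
    intro a
    rw [zpowersHom_apply, toAdd_ofAdd, zpow_one]
    exact h a
  have h2 : g ∈ S := by
    obtain ⟨n, rfl⟩ := Multiplicative.ofAdd.surjective g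
    have h3 : Multiplicative.ofAdd n = (Multiplicative.ofAdd (1 : ℤ)) ^ n := by
      rw [← ofAdd_zsmul, smul_eq_mul, mul_one]
    rw [h3]
    exact zpow_mem h1 n
  exact h2 a

/-- homomorphisms out of an extension of the infinite cyclic group -/
def liftZ : A ⋊[φ] Multiplicative ℤ →* K :=
  SemidirectProduct.lift f (zpowersHom K x) (by
    intro g
    apply MonoidHom.ext
    intro a
    change f (φ g a) = zpowersHom K x g * f a * (zpowersHom K x g)⁻¹
    rw [liftZ_aux φ f x h, mul_inv_cancel_right])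

theorem liftZ_inl (a : A) : liftZ φ f x h (SemidirectProduct.inl a) = f a :=
  SemidirectProduct.lift_inl _ _ _ _

theorem liftZ_inr : liftZ φ f x h (SemidirectProduct.inr (Multiplicative.ofAdd 1)) = x := by
  change SemidirectProduct.lift _ _ _ (SemidirectProduct.inr (Multiplicative.ofAdd 1)) = x
  rw [SemidirectProduct.lift_inr, zpowersHom_apply, toAdd_ofAdd, zpow_one]

end liftZ

namespace InheritsExt

variable {C : (G : Type) → [Group G] → Prop} (hC : InheritsExt C)
include hC

open HNNExtension in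
/-- extensions of the infinite cyclic group by locally finite groups -/
theorem semidirect_LF {A : Type} [Group A] (hA : LF A) (φ : Multiplicative ℤ →* MulAut A) :
    C (A ⋊[φ] Multiplicative ℤ) := by
  let α : MulAut A := φ (Multiplicative.ofAdd 1)
  let ι : Type := {K : Subgroup A // Finite K}
  let G : ι → Type := fun K => HNNExtension A K.1 (K.1.map (α : A →* A)) (α.subgroupMap K.1)
  let K0 : ι := ⟨⊥, inferInstance⟩
  have hrel : ∀ (K : ι) (a : A), a ∈ K.1 → (t : G K) * of a = of (α a) * t := fun K a ha =>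
    t_mul_of (⟨a, ha⟩ : K.1)
  have hmap : ∀ K L : ι, K ≤ L → ∀ a : K.1, (t : G L) * of (a : A) =
      of ((α.subgroupMap K.1 a : K.1.map (α : A →* A)) : A) * t := fun K L hKL a =>
    hrel L a (hKL a.2)
  let f : ∀ K L : ι, K ≤ L → (G K →* G L) := fun K L hKL =>
    HNNExtension.lift (of : A →* G L) t (hmap K L hKL)
  let ψ : ∀ K : ι, G K →* A ⋊[φ] Multiplicative ℤ := fun K =>
    HNNExtension.lift SemidirectProduct.inl (SemidirectProduct.inr (Multiplicative.ofAdd 1)) (by
      intro a
      have h1 : (SemidirectProduct.inl (α a) : A ⋊[φ] Multiplicative ℤ) = _ :=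
        SemidirectProduct.inl_aut (φ := φ) (Multiplicative.ofAdd 1) (a : A)
      change _ = SemidirectProduct.inl (α a) * _
      have h2 : (SemidirectProduct.inr (1 : Multiplicative ℤ) : A ⋊[φ] Multiplicative ℤ) = 1 :=
        MonoidHom.map_one _
      rw [h1, mul_assoc, ← map_mul, inv_mul_cancel, h2, mul_one])
  have hle : ∀ K : ι, K0 ≤ K := fun K => bot_le (a := K.1)
  let π : ∀ K : ι, G K0 →* G K := fun K => f K0 K (hle K)
  have hf : ∀ (K L M : ι) (h1 : K ≤ L) (h2 : L ≤ M) (h3 : K ≤ M),
      (f L M h2).comp (f K L h1) = f K M h3 := by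
    intro K L M h1 h2 h3
    apply HNNExtension.hom_ext
    · ext a
      change f L M h2 (f K L h1 (of a)) = f K M h3 (of a)
      rw [HNNExtension.lift_of, HNNExtension.lift_of, HNNExtension.lift_of]
    · change f L M h2 (f K L h1 t) = f K M h3 t
      rw [HNNExtension.lift_t, HNNExtension.lift_t, HNNExtension.lift_t]
  have hψ : ∀ (K L : ι) (h1 : K ≤ L), (ψ L).comp (f K L h1) = ψ K := by
    intro K L h1
    apply HNNExtension.hom_ext
    · ext1 a
      change ψ L (f K L h1 (of a)) = ψ K (of a)
      rw [HNNExtension.lift_of, HNNExtension.lift_of, HNNExtension.lift_of]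
    · change ψ L (f K L h1 t) = ψ K t
      rw [HNNExtension.lift_t, HNNExtension.lift_t, HNNExtension.lift_t]
  have hdir : IsDirectedOrder ι := by
    refine ⟨?_⟩
    intro K L
    have hKf : Finite K.1 := K.2
    have hLf : Finite L.1 := L.2
    obtain ⟨M, hM, h⟩ := hA ((K.1 : Set A) ∪ (L.1 : Set A))
      ((Set.toFinite _).union (Set.toFinite _))
    exact ⟨⟨M, hM⟩, fun x hx => h (Or.inl hx), fun x hx => h (Or.inr hx)⟩
  have hne : Nonempty ι := ⟨K0⟩
  have hmono : ∀ K L : ι, K ≤ L → (π K).ker ≤ (π L).ker := by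
    intro K L hKL x hx
    have h1 : π K x = 1 := hx
    have h2 : f K L hKL (π K x) = π L x := DFunLike.congr_fun (hf K0 K L (hle K) hKL (hle L)) x
    rw [h1, map_one] at h2
    exact h2.symm
  have hsurj : ∀ K : ι, Function.Surjective (π K) := by
    intro K y
    induction y using HNNExtension.induction_on with
    | of g => exact ⟨of g, HNNExtension.lift_of _ _ _ _⟩
    | t => exact ⟨t, HNNExtension.lift_t _ _ _⟩
    | mul x y hx hy =>
      obtain ⟨a, rfl⟩ := hx
      obtain ⟨b, rfl⟩ := hy
      exact ⟨a * b, map_mul _ _ _⟩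
    | inv x hx =>
      obtain ⟨a, rfl⟩ := hx
      exact ⟨a⁻¹, map_inv _ _⟩
  refine hC.inherits.quot (ψ K0) ?_ (fun K => (π K).ker) hmono ?_ ?_ ?_
  · rintro ⟨a, g⟩
    obtain ⟨n, rfl⟩ := Multiplicative.ofAdd.surjective g
    refine ⟨of a * t ^ n, ?_⟩
    rw [map_mul, map_zpow]
    change ψ K0 (of a) * (ψ K0 t) ^ n = _
    rw [HNNExtension.lift_of, HNNExtension.lift_t, ← map_zpow, ← ofAdd_zsmul, smul_eq_mul, mul_one]
    exact (SemidirectProduct.mk_eq_inl_mul_inr _ _).symm
  · intro K x hx
    have h1 : π K x = 1 := hx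
    have h2 : ψ K (π K x) = ψ K0 x := DFunLike.congr_fun (hψ K0 K (hle K)) x
    rw [h1, map_one] at h2
    exact h2.symm
  · intro x hx
    let U : Subgroup (G K0) :=
      { carrier := {x | ∃ K, x ∈ (π K).ker}
        one_mem' := ⟨K0, one_mem _⟩
        mul_mem' := by
          rintro x y ⟨K, hx⟩ ⟨L, hy⟩
          obtain ⟨M, h1, h2⟩ := hdir.directed K L
          exact ⟨M, mul_mem (hmono K M h1 hx) (hmono L M h2 hy)⟩
        inv_mem' := by
          rintro x ⟨K, hx⟩
          exact ⟨K, inv_mem hx⟩ }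
    have hU : U.Normal := by
      refine ⟨?_⟩
      rintro x ⟨K, hx⟩ g
      exact ⟨K, (inferInstance : (π K).ker.Normal).conj_mem x hx g⟩
    let Φ : A ⋊[φ] Multiplicative ℤ →* G K0 ⧸ U :=
      liftZ φ ((QuotientGroup.mk' U).comp of) (QuotientGroup.mk' U t) (by
        intro a
        change QuotientGroup.mk' U t * QuotientGroup.mk' U (of a) =
          QuotientGroup.mk' U (of (α a)) * QuotientGroup.mk' U t
        rw [← map_mul, ← map_mul]
        change ((t * of a : G K0) : G K0 ⧸ U) = ((of (α a) * t : G K0) : G K0 ⧸ U)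
        rw [QuotientGroup.eq]
        obtain ⟨K, hK, ha⟩ := hA {a} (Set.finite_singleton a)
        refine ⟨⟨K, hK⟩, ?_⟩
        rw [MonoidHom.mem_ker, map_mul, map_inv, inv_mul_eq_one, map_mul, map_mul]
        have e1 : ∀ b, π ⟨K, hK⟩ (of b) = of b := fun b => HNNExtension.lift_of _ _ _ _
        have e2 : π ⟨K, hK⟩ t = t := HNNExtension.lift_t _ _ _
        rw [e1, e1, e2]
        exact hrel ⟨K, hK⟩ a (ha rfl))
    have h1 : Φ.comp (ψ K0) = QuotientGroup.mk' U := by
      apply HNNExtension.hom_ext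
      · ext1 a
        change Φ (ψ K0 (of a)) = _
        rw [HNNExtension.lift_of, liftZ_inl]
      · change Φ (ψ K0 t) = _
        rw [HNNExtension.lift_t, liftZ_inr]
    have h2 : Φ (ψ K0 x) = QuotientGroup.mk' U x := DFunLike.congr_fun h1 x
    have h3 : ψ K0 x = 1 := hx
    rw [h3, map_one] at h2
    exact (QuotientGroup.eq_one_iff x).1 h2.symm
  · intro K
    have hKf : Finite K.1 := K.2
    have hKf' : Finite (K.1.map (α : A →* A)) :=
      Finite.of_equiv _ (α.subgroupMap K.1).toEquiv
    exact hC.iso _ _ (QuotientGroup.quotientKerEquivOfSurjective (π K) (hsurj K)).symm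
      (hC.hnn_locallyFinite hA hKf hKf' _)

end InheritsExt

end Pool.Agent.H44.GW
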