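import Mathlib

/-!
# Closed classes of groups
-/

set_option autoImplicit false

namespace Pool.Agent.H44.GW

/-- `H`, with the homomorphisms `φ i`, is the colimit of the directed system of groups `G i` with the structure maps
`f i j`. The structure maps need not be injective. -/
structure IsDirColimit {ι : Type} [Preorder ι] {G : ι → Type} [∀ i, Group (G i)]
    (f : ∀ i j, i ≤ j → (G i →* G j)) {H : Type} [Group H] (φ : ∀ i, G i →* H) : Prop where
  /-- the index set is not empty -/
  nonempty : Nonempty ι
  /-- the index set is directed -/
  directed : ∀ i j : ι, ∃ k, i ≤ k ∧ j ≤ k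
  /-- the system is functorial: identities -/
  map_id : ∀ (i : ι) (h : i ≤ i) (x : G i), f i i h x = x
  /-- the system is functorial: compositions -/
  map_comp : ∀ (i j k : ι) (hij : i ≤ j) (hjk : j ≤ k) (hik : i ≤ k) (x : G i),
    f j k hjk (f i j hij x) = f i k hik x
  /-- the maps to `H` are compatible -/
  compat : ∀ (i j : ι) (h : i ≤ j) (x : G i), φ j (f i j h x) = φ i x
  /-- the maps to `H` are jointly surjective -/
  surj : ∀ y : H, ∃ (i : ι) (x : G i), φ i x = y
  /-- an element which dies in `H` dies at some stage of the system -/
  ker : ∀ (i : ι) (x : G i), φ i x = 1 → ∃ (j : ι) (h : i ≤ j), f i j h x = 1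

/-- virtually cyclic groups: some cyclic subgroup has finite index -/
def VirtCyclic (G : Type) [Group G] : Prop := ∃ g : G, (Subgroup.zpowers g).FiniteIndex

/-- A class of (small) groups which contains the finite groups and the infinite cyclic group and is closed under
isomorphism, subgroups, finite direct products, finite free products, overgroups of finite index, directed colimits
(with arbitrary structure maps), and extensions in the following sense: if `f : E → Q` is a homomorphism to a member
such that the preimages of all virtually cyclic subgroups of `Q` are members, then `E` is a member. -/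
structure ClosedClass (C : (G : Type) → [Group G] → Prop) : Prop where
  /-- closed under isomorphism -/
  iso : ∀ (G H : Type) [Group G] [Group H], (G ≃* H) → C G → C H
  /-- finite groups -/
  fin : ∀ (G : Type) [Group G], Finite G → C G
  /-- the infinite cyclic group -/
  int : C (Multiplicative ℤ)
  /-- closed under subgroups -/
  sub : ∀ (G : Type) [Group G] (H : Subgroup G), C G → C H
  /-- closed under finite direct products -/
  pi : ∀ (ι : Type), Finite ι → ∀ (G : ι → Type) [∀ i, Group (G i)], (∀ i, C (G i)) → C (∀ i, G i)
  /-- closed under finite free products -/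
  coprod : ∀ (ι : Type), Finite ι → ∀ (G : ι → Type) [∀ i, Group (G i)], (∀ i, C (G i)) →
    C (Monoid.CoprodI G)
  /-- closed under overgroups of finite index -/
  index : ∀ (G : Type) [Group G] (H : Subgroup G), H.FiniteIndex → C H → C G
  /-- closed under directed colimits -/
  colim : ∀ (ι : Type) [Preorder ι] (G : ι → Type) [∀ i, Group (G i)]
    (f : ∀ i j, i ≤ j → (G i →* G j)) (H : Type) [Group H] (φ : ∀ i, G i →* H),
    IsDirColimit f φ → (∀ i, C (G i)) → C H
  /-- the extension property -/
  ext : ∀ (E Q : Type) [Group E] [Group Q] (f : E →* Q), C Q →
    (∀ V : Subgroup Q, VirtCyclic V → C (V.comap f)) → C E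

end Pool.Agent.H44.GW
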