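import Pool.Agent.H44.GW.ClassDefs

/-!
# Graph products
-/

set_option autoImplicit false

namespace Pool.Agent.H44.GW

section family

variable {I : Type} (H : I → Type) [∀ i, Group (H i)] (X : I → Type)

/-- the vertex group at `p = (i, x)`, namely `H i` -/
abbrev Vx (p : Σ i, X i) : Type := H p.1

/-- the free product of the vertex groups -/
def FreeProduct : Type := Monoid.CoprodI (Vx H X)

instance instFP : Group (FreeProduct H X) := (inferInstance : Group (Monoid.CoprodI (Vx H X)))

/-- the element `a` of the vertex group at `p`, in the free product -/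
def el (p : Σ i, X i) (a : Vx H X p) : FreeProduct H X := Monoid.CoprodI.of (M := Vx H X) (i := p) a

variable {X}

/-- the commutators of the vertex groups at adjacent vertices -/
def commSetS (Γ : SimpleGraph (Σ i, X i)) : Set (FreeProduct H X) :=
  {y | ∃ p q : Σ i, X i, Γ.Adj p q ∧ ∃ (a : Vx H X p) (b : Vx H X q),
    y = el H X p a * el H X q b * (el H X p a)⁻¹ * (el H X q b)⁻¹}

/-- The graph product with vertex group `H i` at each vertex `(i, x)`: the free product of the vertex groups modulo the
commutators of the vertex groups at adjacent vertices. -/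
def GraphProduct (Γ : SimpleGraph (Σ i, X i)) : Type :=
  FreeProduct H X ⧸ Subgroup.normalClosure (commSetS H Γ)

instance instGP (Γ : SimpleGraph (Σ i, X i)) : Group (GraphProduct H Γ) :=
  (inferInstance : Group (FreeProduct H X ⧸ Subgroup.normalClosure (commSetS H Γ)))

/-- the element `a` of the vertex group at `p`, in the graph product -/
def vertex (Γ : SimpleGraph (Σ i, X i)) (p : Σ i, X i) (a : Vx H X p) : GraphProduct H Γ :=
  QuotientGroup.mk (s := Subgroup.normalClosure (commSetS H Γ)) (el H X p a)

/-- a group which acts on the sets `X i` acts on their disjoint union -/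
abbrev move {G : Type} [Group G] [∀ i, MulAction G (X i)] (g : G) (p : Σ i, X i) : Σ i, X i :=
  ⟨p.1, g • p.2⟩

end family

end Pool.Agent.H44.GW
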