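import Pool.Agent.H44.GW.Remove2

/-!
# All graphs: the directed colimit over finite sets of edges
-/

set_option autoImplicit false

namespace Pool.Agent.H44.GW

open Pool.Agent.H98.FJ

section rt

variable {V : Type} {G : Type} [Group G] (ρ : G →* Equiv.Perm V)

/-- the orbits of finitely many edges -/
def rt {r : V → V → Prop} (t : Finset {p : V × V // r p.1 p.2}) (v w : V) : Prop :=
  ∃ p ∈ t, ∃ g, ρ g p.1.1 = v ∧ ρ g p.1.2 = w

theorem rt_inv {r : V → V → Prop} (t : Finset {p : V × V // r p.1 p.2}) (g : G) (v w : V)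
    (h : rt ρ t v w) : rt ρ t (ρ g v) (ρ g w) := by
  obtain ⟨p, hp, g', rfl, rfl⟩ := h
  exact ⟨p, hp, g * g', by simp, by simp⟩

theorem rt_mono {r : V → V → Prop} {t t' : Finset {p : V × V // r p.1 p.2}} (h : t ≤ t')
    {v w : V} (hvw : rt ρ t v w) : rt ρ t' v w := by
  obtain ⟨p, hp, g, h1, h2⟩ := hvw
  exact ⟨p, h hp, g, h1, h2⟩

theorem rt_le {r : V → V → Prop} (hr : ∀ g v w, r v w → r (ρ g v) (ρ g w))
    {t : Finset {p : V × V // r p.1 p.2}} {v w : V} (hvw : rt ρ t v w) : r v w := by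
  obtain ⟨p, _, g, rfl, rfl⟩ := hvw
  exact hr g _ _ p.2

end rt

namespace W

variable {H : Type} [Group H] {V : Type} {G : Type} [Group G] {ρ : G →* Equiv.Perm V}

/-- more relations -/
def mapRel {r s : V → V → Prop} (hr : ∀ g v w, r v w → r (ρ g v) (ρ g w))
    (hs : ∀ g v w, s v w → s (ρ g v) (ρ g w)) (h : ∀ v w, r v w → s v w) :
    W H r ρ hr →* W H s ρ hs :=
  lift hr (of hs) (emb hs) (fun v w hvw a b => of_commute hs (h v w hvw) a b)
    (fun g v a => emb_conj hs g v a)

@[simp]
theorem mapRel_of {r s : V → V → Prop} (hr : ∀ g v w, r v w → r (ρ g v) (ρ g w))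
    (hs : ∀ g v w, s v w → s (ρ g v) (ρ g w)) (h : ∀ v w, r v w → s v w) (v : V) (a : H) :
    mapRel hr hs h (of hr v a) = of hs v a :=
  lift_of _ _ _ _ _ _ _

@[simp]
theorem mapRel_emb {r s : V → V → Prop} (hr : ∀ g v w, r v w → r (ρ g v) (ρ g w))
    (hs : ∀ g v w, s v w → s (ρ g v) (ρ g w)) (h : ∀ v w, r v w → s v w) (g : G) :
    mapRel (H := H) hr hs h (emb hr g) = emb hs g :=
  lift_emb _ _ _ _ _ _

theorem mapRel_surjective {r s : V → V → Prop} (hr : ∀ g v w, r v w → r (ρ g v) (ρ g w))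
    (hs : ∀ g v w, s v w → s (ρ g v) (ρ g w)) (h : ∀ v w, r v w → s v w) :
    Function.Surjective (mapRel (H := H) hr hs h) := fun x =>
  eq_top hs (mapRel (H := H) hr hs h).range (fun v a => ⟨of hr v a, mapRel_of _ _ _ _ _⟩)
    (fun g => ⟨emb hr g, mapRel_emb _ _ _ _⟩) x

theorem mapRel_comp {r s u : V → V → Prop} (hr : ∀ g v w, r v w → r (ρ g v) (ρ g w))
    (hs : ∀ g v w, s v w → s (ρ g v) (ρ g w)) (hu : ∀ g v w, u v w → u (ρ g v) (ρ g w))
    (h : ∀ v w, r v w → s v w) (h' : ∀ v w, s v w → u v w) (h'' : ∀ v w, r v w → u v w)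
    (x : W H r ρ hr) : mapRel hs hu h' (mapRel hr hs h x) = mapRel hr hu h'' x := by
  have h1 : (mapRel (H := H) hs hu h').comp (mapRel hr hs h) = mapRel hr hu h'' := by
    apply hom_ext hr
    · intro v a
      change mapRel hs hu h' (mapRel hr hs h (of hr v a)) = mapRel hr hu h'' (of hr v a)
      rw [mapRel_of, mapRel_of, mapRel_of]
    · intro g
      change mapRel hs hu h' (mapRel hr hs h (emb hr g)) = mapRel hr hu h'' (emb hr g)
      rw [mapRel_emb, mapRel_emb, mapRel_emb]
  exact DFunLike.congr_fun h1 x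

end W

namespace InheritsExt

variable {C : (G : Type) → [Group G] → Prop} (hC : InheritsExt C)
include hC

variable {H : Type} [Group H]

open W in
/-- it suffices to consider graphs with finitely many orbits of edges -/
theorem W_edges {V : Type} {r : V → V → Prop} {G : Type} [Group G] {ρ : G →* Equiv.Perm V}
    (hr : ∀ g v w, r v w → r (ρ g v) (ρ g w))
    (h : ∀ t : Finset {p : V × V // r p.1 p.2}, C (W H (rt ρ t) ρ (rt_inv ρ t))) :
    C (W H r ρ hr) := by
  classical
  let z : V → V → Prop := fun _ _ => False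
  have hz : ∀ g v w, z v w → z (ρ g v) (ρ g w) := fun g v w h => h
  let F : Type := W H z ρ hz
  let φ : W H z ρ hz →* W H r ρ hr := mapRel hz hr (fun v w h => h.elim)
  let φt : (t : Finset {p : V × V // r p.1 p.2}) → W H z ρ hz →* W H (rt ρ t) ρ (rt_inv ρ t) :=
    fun t => mapRel hz (rt_inv ρ t) (fun v w h => h.elim)
  have hmono : ∀ (t t' : Finset {p : V × V // r p.1 p.2}), t ≤ t' →
      (φt t).ker ≤ (φt t').ker := by
    intro t t' htt' x hx
    have h1 : φt t x = 1 := hx
    have h2 : mapRel (rt_inv ρ t) (rt_inv ρ t') (fun v w => rt_mono ρ htt') (φt t x) = φt t' x :=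
      mapRel_comp _ _ _ _ _ _ x
    rw [h1, map_one] at h2
    exact h2.symm
  refine hC.inherits.quot φ (mapRel_surjective _ _ _) (fun t => (φt t).ker) hmono ?_ ?_ ?_
  · intro t x hx
    have h1 : φt t x = 1 := hx
    have h2 : mapRel (rt_inv ρ t) hr (fun v w => rt_le ρ hr) (φt t x) = φ x :=
      mapRel_comp _ _ _ _ _ _ x
    rw [h1, map_one] at h2
    exact h2.symm
  · intro x hx
    let U : Subgroup (W H z ρ hz) :=
      { carrier := {x | ∃ t, x ∈ (φt t).ker}
        one_mem' := ⟨∅, one_mem _⟩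
        mul_mem' := by
          rintro x y ⟨t, hx⟩ ⟨t', hy⟩
          exact ⟨t ∪ t', mul_mem (hmono t _ Finset.subset_union_left hx)
            (hmono t' _ Finset.subset_union_right hy)⟩
        inv_mem' := by
          rintro x ⟨t, hx⟩
          exact ⟨t, inv_mem hx⟩ }
    have hU : U.Normal := by
      refine ⟨?_⟩
      rintro x ⟨t, hx⟩ g
      exact ⟨t, (inferInstance : (φt t).ker.Normal).conj_mem x hx g⟩
    let ψ : W H r ρ hr →* W H z ρ hz ⧸ U := lift hr
      (fun v => (QuotientGroup.mk' U).comp (of hz v)) ((QuotientGroup.mk' U).comp (emb hz))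
      (by
        intro v w hvw a b
        change ((of hz v a * of hz w b : W H z ρ hz) : W H z ρ hz ⧸ U) =
          ((of hz w b * of hz v a : W H z ρ hz) : W H z ρ hz ⧸ U)
        rw [QuotientGroup.eq]
        refine ⟨{⟨(v, w), hvw⟩}, ?_⟩
        rw [MonoidHom.mem_ker, map_mul, map_inv, inv_mul_eq_one, map_mul, map_mul]
        change mapRel _ _ _ (of hz v a) * mapRel _ _ _ (of hz w b) =
          mapRel _ _ _ (of hz w b) * mapRel _ _ _ (of hz v a)
        rw [mapRel_of, mapRel_of]
        exact of_commute _ ⟨⟨(v, w), hvw⟩, by simp, 1, by simp, by simp⟩ a b)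
      (by
        intro g v a
        change ((emb hz g * of hz v a * (emb hz g)⁻¹ : W H z ρ hz) : W H z ρ hz ⧸ U) = _
        rw [emb_conj]
        rfl)
    have h1 : ψ.comp φ = QuotientGroup.mk' U := by
      apply hom_ext hz
      · intro v a
        change ψ (mapRel _ _ _ (of hz v a)) = _
        rw [mapRel_of, lift_of]
        rfl
      · intro g
        change ψ (mapRel _ _ _ (emb hz g)) = _
        rw [mapRel_emb, lift_emb]
        rfl
    have h2 : ψ (φ x) = QuotientGroup.mk' U x := DFunLike.congr_fun h1 x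
    have h3 : φ x = 1 := hx
    rw [h3, map_one] at h2
    exact (QuotientGroup.eq_one_iff x).1 h2.symm
  · intro t
    exact hC.iso _ _ (QuotientGroup.quotientKerEquivOfSurjective (φt t)
      (mapRel_surjective _ _ _)).symm (h t)

end InheritsExt

end Pool.Agent.H44.GW
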