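import Pool.Agent.H98.FJ.Closed

/-!
# Classes of groups with inheritance properties, including the extension property
-/

set_option autoImplicit false

namespace Pool.Agent.H44.GW

open Pool.Agent.H98.FJ

/-- virtually cyclic groups: some cyclic subgroup has finite index -/
def IsVirtuallyCyclic (G : Type) [Group G] : Prop := ∃ g : G, (Subgroup.zpowers g).FiniteIndex

/-- A class of (small) groups which contains the finite groups and the infinite cyclic group, is closed under
isomorphism, subgroups, finite products, finite free products, overgroups of finite index and directed colimits, and has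
the extension property: if `f : E → Q` is a homomorphism to a member such that the preimages of all virtually cyclic
subgroups of `Q` are members, then `E` is a member. -/
structure InheritsExt (C : (G : Type) → [Group G] → Prop) : Prop extends Inherits C where
  /-- the extension property -/
  ext : ∀ (E Q : Type) [Group E] [Group Q] (f : E →* Q), C Q →
    (∀ V : Subgroup Q, IsVirtuallyCyclic V → C (V.comap f)) → C E

/-- the two members of a family over `Bool` -/
def BF (A B : Type) : Bool → Type
  | true => A
  | false => B

instance instBF (A B : Type) [Group A] [Group B] : (b : Bool) → Group (BF A B b)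
  | true => inferInstanceAs (Group A)
  | false => inferInstanceAs (Group B)

/-- a product as a product over `Bool` -/
def toBF (A B : Type) [Group A] [Group B] : A × B →* (∀ b, BF A B b) where
  toFun x b := match b with
    | true => x.1
    | false => x.2
  map_one' := by
    funext b
    cases b <;> rfl
  map_mul' x y := by
    funext b
    cases b <;> rfl

/-- preimages of subgroups of finite index -/
theorem finiteIndex_comap {E G : Type} [Group E] [Group G] (f : E →* G) (K : Subgroup G)
    (h : K.FiniteIndex) : (K.comap f).FiniteIndex := by
  refine ⟨?_⟩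
  rw [Subgroup.index_comap]
  exact fun h0 => h.index_ne_zero (Subgroup.index_eq_zero_of_relIndex_eq_zero h0)

namespace InheritsExt

variable {C : (G : Type) → [Group G] → Prop} (hC : InheritsExt C)
include hC

theorem inherits : Inherits C := hC.toInherits

omit hC in
theorem prodAux_inj {A B : Type} [Group A] [Group B] : Function.Injective (toBF A B) := by
  intro x y hxy
  have h2 : (toBF A B x) true = (toBF A B y) true := congrFun hxy true
  have h3 : (toBF A B x) false = (toBF A B y) false := congrFun hxy false
  exact Prod.ext h2 h3

theorem prod {A B : Type} [Group A] [Group B] (hA : C A) (hB : C B) : C (A × B) := by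
  have h1 : C (∀ b, BF A B b) := by
    refine hC.pi Bool inferInstance (BF A B) ?_
    intro b
    cases b
    · exact hB
    · exact hA
  exact hC.inherits.of_injective (toBF A B) prodAux_inj h1

/-- the trivial group -/
theorem trivial {G : Type} [Group G] (h : Subsingleton G) : C G :=
  hC.fin G inferInstance

/-- overgroups of finite index, with a homomorphism -/
theorem index' {K G : Type} [Group K] [Group G] (φ : K →* G)
    (hi : φ.range.FiniteIndex) (hφ : Function.Injective φ) (hK : C K) : C G :=
  hC.index G φ.range hi (hC.iso K φ.range (MonoidHom.ofInjective hφ) hK)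

/-- change of the acting group of a semidirect product -/
theorem semidirect_change {N G K : Type} [Group N] [Group G] [Group K] (φ : G →* MulAut N)
    (j : K →* G) (hj : Function.Injective j) (hK : C (N ⋊[φ.comp j] K)) :
    C (j.range.comap (SemidirectProduct.rightHom : N ⋊[φ] G →* G)) := by
  let m : N ⋊[φ.comp j] K →* N ⋊[φ] G :=
    SemidirectProduct.map (MonoidHom.id N) j (by intro g; ext x; rfl)
  have hm : Function.Injective m := by
    intro x y hxy
    have h1 : (m x).left = (m y).left := by rw [hxy]
    have h2 : (m x).right = (m y).right := by rw [hxy]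
    have h3 : x.left = y.left := h1
    have h4 : x.right = y.right := hj h2
    exact SemidirectProduct.ext h3 h4
  have hr : m.range = j.range.comap (SemidirectProduct.rightHom : N ⋊[φ] G →* G) := by
    ext x
    constructor
    · rintro ⟨y, rfl⟩
      exact ⟨y.right, rfl⟩
    · rintro ⟨k, hk⟩
      exact ⟨⟨x.left, k⟩, SemidirectProduct.ext rfl hk⟩
  rw [← hr]
  exact hC.iso _ _ (MonoidHom.ofInjective hm) hK

/-- the finite index version -/
theorem semidirect_index {N G K : Type} [Group N] [Group G] [Group K] (φ : G →* MulAut N)
    (j : K →* G) (hj : Function.Injective j) (hi : j.range.FiniteIndex)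
    (hK : C (N ⋊[φ.comp j] K)) : C (N ⋊[φ] G) := by
  refine hC.index _ (j.range.comap (SemidirectProduct.rightHom : N ⋊[φ] G →* G)) ?_
    (hC.semidirect_change φ j hj hK)
  exact finiteIndex_comap _ _ hi

/-- overgroups of finite index inside a group -/
theorem relIndex {G : Type} [Group G] (A B : Subgroup G) (hAB : A ≤ B) (hi : A.relIndex B ≠ 0)
    (hA : C A) : C B :=
  hC.index B (A.subgroupOf B) ⟨hi⟩ (hC.iso _ _ (Subgroup.subgroupOfEquivOfLe hAB).symm hA)

/-- preimages -/
theorem comap_relIndex {E G : Type} [Group E] [Group G] (f : E →* G)
    (hf : Function.Surjective f) (A V : Subgroup G) (hAV : A ≤ V) (hi : A.relIndex V ≠ 0)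
    (hA : C (A.comap f)) : C (V.comap f) := by
  refine hC.relIndex _ _ (Subgroup.comap_mono hAV) ?_ hA
  rw [Subgroup.relIndex_comap, Subgroup.map_comap_eq_self_of_surjective hf]
  exact hi

/-- Semidirect products with a member of the class: it suffices to consider the infinite cyclic group acting through the
elements. -/
theorem semidirect {N G : Type} [Group N] [Group G] (φ : G →* MulAut N) (hG : C G)
    (h : ∀ g : G, C (N ⋊[φ.comp (zpowersHom G g)] (Multiplicative ℤ))) : C (N ⋊[φ] G) := by
  have hN : C N := by
    refine hC.inherits.of_injective (SemidirectProduct.inl :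
      N →* N ⋊[φ.comp (zpowersHom G 1)] (Multiplicative ℤ)) SemidirectProduct.inl_injective
      (h 1)
  refine hC.ext _ G (SemidirectProduct.rightHom : N ⋊[φ] G →* G) hG ?_
  rintro V ⟨g, hg⟩
  -- the cyclic subgroup as a subgroup of `G`
  have hle : Subgroup.zpowers (g : G) ≤ V := by
    rw [Subgroup.zpowers_le]
    exact g.2
  have hsub : (Subgroup.zpowers (g : G)).subgroupOf V = Subgroup.zpowers g := by
    ext x
    rw [Subgroup.mem_subgroupOf, Subgroup.mem_zpowers_iff, Subgroup.mem_zpowers_iff]
    constructor
    · rintro ⟨k, hk⟩
      exact ⟨k, Subtype.ext (by simpa using hk)⟩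
    · rintro ⟨k, hk⟩
      exact ⟨k, by rw [← hk]; simp⟩
  have hidx : (Subgroup.zpowers (g : G)).relIndex V ≠ 0 := by
    have h1 : ((Subgroup.zpowers (g : G)).subgroupOf V).index ≠ 0 := by
      rw [hsub]
      exact hg.index_ne_zero
    exact h1
  have hsurj : Function.Surjective (SemidirectProduct.rightHom : N ⋊[φ] G →* G) :=
    SemidirectProduct.rightHom_surjective
  by_cases hfin : IsOfFinOrder (g : G)
  · refine hC.comap_relIndex _ hsurj ⊥ V bot_le ?_ ?_
    · have h3 : Finite (Subgroup.zpowers g) := by
        have : IsOfFinOrder g := by
          rw [isOfFinOrder_iff_pow_eq_one] at hfin ⊢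
          obtain ⟨n, hn, h4⟩ := hfin
          exact ⟨n, hn, Subtype.ext (by simpa using h4)⟩
        exact finite_zpowers.2 this
      rw [Subgroup.relIndex_bot_left, ← (Subgroup.zpowers g).card_mul_index]
      exact mul_ne_zero Nat.card_pos.ne' hg.index_ne_zero
    · have h5 : (⊥ : Subgroup G).comap (SemidirectProduct.rightHom : N ⋊[φ] G →* G) =
          (SemidirectProduct.inl : N →* N ⋊[φ] G).range := by
        rw [SemidirectProduct.range_inl_eq_ker_rightHom]
        rfl
      rw [h5]
      exact hC.iso _ _ (MonoidHom.ofInjective SemidirectProduct.inl_injective) hN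
  · have hinj : Function.Injective (zpowersHom G (g : G)) := by
      intro x y hxy
      have h1 : (g : G) ^ (Multiplicative.toAdd x) = (g : G) ^ (Multiplicative.toAdd y) := by
        simpa using hxy
      exact Multiplicative.toAdd.injective
        (injective_zpow_iff_not_isOfFinOrder.2 hfin h1)
    have hr : (zpowersHom G (g : G)).range = Subgroup.zpowers (g : G) := by
      ext x
      rw [Subgroup.mem_zpowers_iff]
      constructor
      · rintro ⟨k, hk⟩
        exact ⟨Multiplicative.toAdd k, by simpa using hk⟩
      · rintro ⟨k, hk⟩
        exact ⟨Multiplicative.ofAdd k, by simpa using hk⟩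
    refine hC.comap_relIndex _ hsurj (Subgroup.zpowers (g : G)) V hle hidx ?_
    rw [← hr]
    exact hC.semidirect_change φ _ hinj (h g)

end InheritsExt

end Pool.Agent.H44.GW
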