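import Pool.Agent.H44.GW.Main
import Pool.Agent.H44.GW.Defs

/-!
# Graph wreath products with several vertex groups
-/

set_option autoImplicit false

namespace Pool.Agent.H44.GW

open Pool.Agent.H98.FJ

theorem ClosedClass.inheritsExt {C : (G : Type) → [Group G] → Prop} (hC : ClosedClass C) :
    InheritsExt C where
  iso := hC.iso
  fin := hC.fin
  int := hC.int
  sub := hC.sub
  pi := hC.pi
  coprod := hC.coprod
  index := hC.index
  colim := fun ι _ G _ f H _ φ h => hC.colim ι G f H φ
    { nonempty := h.nonempty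
      directed := h.directed
      map_id := h.map_id
      map_comp := h.map_comp
      compat := h.compat
      surj := h.surj
      ker := h.ker }
  ext := hC.ext

section family

variable {I : Type} (H : I → Type) [∀ i, Group (H i)] {X : I → Type}

namespace GraphProduct

/-- the vertex groups in the free product -/
def vtx (p : Σ i, X i) : Vx H X p →* FreeProduct H X := Monoid.CoprodI.of (M := Vx H X) (i := p)

/-- the projection -/
def mk (r : SimpleGraph (Σ i, X i)) : FreeProduct H X →* GraphProduct H r :=
  QuotientGroup.mk' (Subgroup.normalClosure (commSetS H r))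

/-- the vertex groups -/
def of (r : SimpleGraph (Σ i, X i)) (p : Σ i, X i) : Vx H X p →* GraphProduct H r :=
  (mk H r).comp (vtx H p)

variable {H}

theorem of_commute (r : SimpleGraph (Σ i, X i)) {p q : Σ i, X i} (h : r.Adj p q)
    (a : Vx H X p) (b : Vx H X q) : of H r p a * of H r q b = of H r q b * of H r p a := by
  have h1 : vtx H p a * vtx H q b * (vtx H p a)⁻¹ * (vtx H q b)⁻¹ ∈
      Subgroup.normalClosure (commSetS H r) :=
    Subgroup.subset_normalClosure ⟨p, q, h, a, b, rfl⟩
  have h2 : mk H r (vtx H p a * vtx H q b * (vtx H p a)⁻¹ * (vtx H q b)⁻¹) = 1 :=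
    (QuotientGroup.eq_one_iff _).2 h1
  rw [_root_.map_mul, mul_assoc, _root_.map_mul, _root_.map_mul, map_inv, map_inv] at h2
  have h3 : of H r p a * of H r q b * (of H r p a)⁻¹ * (of H r q b)⁻¹ = 1 := by
    rw [mul_assoc]
    exact h2
  rw [mul_inv_eq_one, mul_inv_eq_iff_eq_mul] at h3
  exact h3

/-- homomorphisms out of the free product -/
def liftFree {K : Type} [Group K] (f : ∀ p : Σ i, X i, Vx H X p →* K) : FreeProduct H X →* K :=
  Monoid.CoprodI.lift (M := Vx H X) f

theorem liftFree_vtx {K : Type} [Group K] (f : ∀ p : Σ i, X i, Vx H X p →* K) (p : Σ i, X i)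
    (a : Vx H X p) : liftFree f (vtx H p a) = f p a :=
  Monoid.CoprodI.lift_of (M := Vx H X) _ _

theorem lift_aux (r : SimpleGraph (Σ i, X i)) {K : Type} [Group K]
    (f : ∀ p : Σ i, X i, Vx H X p →* K)
    (h : ∀ p q, r.Adj p q → ∀ a b, f p a * f q b = f q b * f p a) (x : FreeProduct H X)
    (hx : x ∈ Subgroup.normalClosure (commSetS H r)) : liftFree f x = 1 := by
  have h1 : Subgroup.normalClosure (commSetS H r) ≤ (liftFree f).ker := by
    apply Subgroup.normalClosure_le_normal
    rintro y ⟨p, q, hpq, a, b, rfl⟩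
    change liftFree f (vtx H p a * vtx H q b * (vtx H p a)⁻¹ * (vtx H q b)⁻¹) = 1
    rw [_root_.map_mul, _root_.map_mul, _root_.map_mul, map_inv, map_inv, liftFree_vtx,
      liftFree_vtx, mul_inv_eq_one, mul_inv_eq_iff_eq_mul]
    exact h p q hpq a b
  exact h1 hx

/-- homomorphisms out of the graph product -/
def lift (r : SimpleGraph (Σ i, X i)) {K : Type} [Group K]
    (f : ∀ p : Σ i, X i, Vx H X p →* K)
    (h : ∀ p q, r.Adj p q → ∀ a b, f p a * f q b = f q b * f p a) : GraphProduct H r →* K :=
  QuotientGroup.lift (Subgroup.normalClosure (commSetS H r)) (liftFree f) (lift_aux r f h)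

@[simp]
theorem lift_of (r : SimpleGraph (Σ i, X i)) {K : Type} [Group K]
    (f : ∀ p : Σ i, X i, Vx H X p →* K)
    (h : ∀ p q, r.Adj p q → ∀ a b, f p a * f q b = f q b * f p a) (p : Σ i, X i)
    (a : Vx H X p) : lift r f h (of H r p a) = f p a :=
  liftFree_vtx f p a

theorem hom_ext {r : SimpleGraph (Σ i, X i)} {K : Type} [Group K]
    {f g : GraphProduct H r →* K} (h : ∀ p a, f (of H r p a) = g (of H r p a)) : f = g := by
  apply QuotientGroup.monoidHom_ext
  apply Monoid.CoprodI.ext_hom
  intro p
  ext a
  exact h p a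

end GraphProduct

end family

section embed

variable {I : Type} {H : I → Type} [∀ i, Group (H i)] {X : I → Type} {G : Type} [Group G]
  [∀ i, MulAction G (X i)] (r : SimpleGraph (Σ i, X i))
  (hr : ∀ (g : G) (p q : Σ i, X i), r.Adj p q → r.Adj (move g p) (move g q))

/-- the action on the vertices -/
def rhoS (G : Type) [Group G] (X : I → Type) [∀ i, MulAction G (X i)] :
    G →* Equiv.Perm (Σ i, X i) where
  toFun g :=
    { toFun := fun p => move g p
      invFun := fun p => move g⁻¹ p
      left_inv := by
        rintro ⟨i, x⟩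
        simp [move]
      right_inv := by
        rintro ⟨i, x⟩
        simp [move] }
  map_one' := by
    ext1 ⟨i, x⟩
    simp [move]
  map_mul' g g' := by
    ext1 ⟨i, x⟩
    simp [move, mul_smul]

open Classical in
/-- the projection of the free product to a factor -/
noncomputable def projI (H : I → Type) [∀ i, Group (H i)] (i : I) : Monoid.CoprodI H →* H i :=
  Monoid.CoprodI.lift (fun j => if h : j = i then h ▸ MonoidHom.id (H j) else 1)

theorem projI_of (i : I) (a : H i) :
    projI H i (Monoid.CoprodI.of (M := H) (i := i) a) = a := by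
  rw [projI, Monoid.CoprodI.lift_of, dif_pos rfl]
  rfl

include hr in
theorem ClosedClass.graphProduct_mem {C : (G : Type) → [Group G] → Prop} (hC : ClosedClass C)
    (hH : ∀ i, C (H i)) (hG : C G) (φ : G →* MulAut (GraphProduct H r))
    (hφ : ∀ (g : G) (p : Σ i, X i) (a : Vx H X p),
      φ g (vertex H r p a) = vertex H r (move g p) a) :
    C (GraphProduct H r ⋊[φ] G) := by
  have hr' : ∀ (g : G) (p q : Σ i, X i), r.Adj p q → r.Adj (rhoS G X g p) (rhoS G X g q) := hr
  have hC' : InheritsExt C := hC.inheritsExt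
  have h1 : C (W (Monoid.CoprodI H) r.Adj (rhoS G X) hr') :=
    hC'.W_mem hr' (fun p q hpq => hpq.ne) (hC'.inherits.coprodI hH) hG
  -- the embedding
  let f1 : GraphProduct H r →* GP (Monoid.CoprodI H) r.Adj :=
    GraphProduct.lift r (fun p => (GP.of (Monoid.CoprodI H) r.Adj p).comp
      (Monoid.CoprodI.of (M := H) (i := p.1)))
      (fun p q hpq a b => GP.of_commute r.Adj hpq _ _)
  have hf1 : ∀ (p : Σ i, X i) (a : Vx H X p), f1 (GraphProduct.of H r p a) =
      GP.of (Monoid.CoprodI H) r.Adj p (Monoid.CoprodI.of (M := H) (i := p.1) a) :=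
    fun p a => GraphProduct.lift_of (H := H) r _ _ p a
  let f2 : GP (Monoid.CoprodI H) r.Adj →* GraphProduct H r :=
    GP.lift r.Adj (fun p => (GraphProduct.of H r p).comp (projI H p.1))
      (fun p q hpq a b => GraphProduct.of_commute r hpq _ _)
  have h2 : f2.comp f1 = MonoidHom.id _ := by
    apply GraphProduct.hom_ext
    intro p a
    rw [MonoidHom.comp_apply, hf1, GP.lift_of, MonoidHom.comp_apply, projI_of]
    rfl
  have h3 : Function.Injective f1 := by
    intro x y hxy
    have hx := DFunLike.congr_fun h2 x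
    have hy := DFunLike.congr_fun h2 y
    change f2 (f1 x) = x at hx
    change f2 (f1 y) = y at hy
    rw [← hx, ← hy, hxy]
  have h4 : ∀ (g : G) (n : GraphProduct H r), f1 (φ g n) =
      act (H := Monoid.CoprodI H) (rhoS G X) hr' g (f1 n) := by
    intro g n
    have h5 : f1.comp (φ g).toMonoidHom =
        (act (H := Monoid.CoprodI H) (rhoS G X) hr' g).toMonoidHom.comp f1 := by
      apply GraphProduct.hom_ext
      intro p a
      change f1 (φ g (vertex H r p a)) =
        act (H := Monoid.CoprodI H) (rhoS G X) hr' g (f1 (GraphProduct.of H r p a))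
      rw [hφ, hf1, act_of]
      exact hf1 (move g p) a
    exact DFunLike.congr_fun h5 n
  let F : GraphProduct H r ⋊[φ] G →* W (Monoid.CoprodI H) r.Adj (rhoS G X) hr' :=
    SemidirectProduct.map f1 (MonoidHom.id G) (by
      intro g
      apply MonoidHom.ext
      intro n
      exact h4 g n)
  refine hC'.inherits.of_injective F ?_ h1
  intro x y hxy
  have h5 : (F x).left = (F y).left := by rw [hxy]
  have h6 : (F x).right = (F y).right := by rw [hxy]
  exact SemidirectProduct.ext (h3 h5) h6

end embed

end Pool.Agent.H44.GW
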