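import Pool.Agent.H44.GW.GP
import Pool.Agent.H44.GW.Ext

/-!
# Free products permuted by a group
-/

set_option autoImplicit false

namespace Pool.Agent.H44.GW

open Pool.Agent.H98.FJ

/-- the restriction of an action to an invariant subset -/
def restr {V : Type} {G : Type} [Group G] (ρ : G →* Equiv.Perm V) (P : V → Prop)
    (hP : ∀ g v, P v → P (ρ g v)) : G →* Equiv.Perm {v // P v} where
  toFun g :=
    { toFun := fun v => ⟨ρ g v.1, hP g v.1 v.2⟩
      invFun := fun v => ⟨ρ g⁻¹ v.1, hP g⁻¹ v.1 v.2⟩
      left_inv := fun v => Subtype.ext (by simp)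
      right_inv := fun v => Subtype.ext (by simp) }
  map_one' := by
    ext v
    simp
  map_mul' g g' := by
    ext v
    simp

@[simp]
theorem restr_apply {V : Type} {G : Type} [Group G] (ρ : G →* Equiv.Perm V) (P : V → Prop)
    (hP : ∀ g v, P v → P (ρ g v)) (g : G) (v : {v // P v}) :
    (restr ρ P hP g v).1 = ρ g v.1 := rfl

namespace W

variable {H : Type} [Group H] {V : Type} {r : V → V → Prop} {G : Type} [Group G]
  {ρ : G →* Equiv.Perm V} (hr : ∀ g v w, r v w → r (ρ g v) (ρ g w))

/-- a subgroup which contains the generators is everything -/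
theorem eq_top (S : Subgroup (W H r ρ hr)) (h1 : ∀ v a, of hr v a ∈ S)
    (h2 : ∀ x, emb hr x ∈ S) (x : W H r ρ hr) : x ∈ S := by
  let f : V → H →* S := fun v => (of hr v).codRestrict S (h1 v)
  let k : G →* S := (emb hr).codRestrict S h2
  let φ : W H r ρ hr →* S := lift hr f k
    (fun v w h a b => Subtype.ext (of_commute hr h a b))
    (fun g v a => Subtype.ext (emb_conj hr g v a))
  have h : S.subtype.comp φ = MonoidHom.id _ := by
    apply hom_ext hr
    · intro v a
      change ((φ (of hr v a) : S) : W H r ρ hr) = of hr v a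
      rw [lift_of]
      rfl
    · intro y
      change ((φ (emb hr y) : S) : W H r ρ hr) = emb hr y
      rw [lift_emb]
      rfl
  have h3 := DFunLike.congr_fun h x
  change ((φ x : S) : W H r ρ hr) = x at h3
  rw [← h3]
  exact (φ x).2

/-- change of the acting group -/
theorem act_comp {K : Type} [Group K] (j : K →* G) :
    (act (H := H) ρ hr).comp j = act (ρ.comp j) (fun k => hr (j k)) := by
  ext k x
  rfl

end W

namespace InheritsExt

variable {C : (G : Type) → [Group G] → Prop} (hC : InheritsExt C)
include hC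

variable {H : Type} [Group H] {V : Type} {r : V → V → Prop} {G : Type} [Group G]
  {ρ : G →* Equiv.Perm V} (hr : ∀ g v w, r v w → r (ρ g v) (ρ g w))

/-- it suffices to consider actions of the infinite cyclic group -/
theorem W_cyclic (hG : C G)
    (h : ∀ g : G, C (W H r (ρ.comp (zpowersHom G g)) (fun k => hr (zpowersHom G g k)))) :
    C (W H r ρ hr) := by
  refine hC.semidirect _ hG ?_
  intro g
  rw [W.act_comp]
  exact h g

/-- acting groups of finite index -/
theorem W_index {K : Type} [Group K] (j : K →* G) (hj : Function.Injective j)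
    (hi : j.range.FiniteIndex) (h : C (W H r (ρ.comp j) (fun k => hr (j k)))) :
    C (W H r ρ hr) := by
  refine hC.semidirect_index _ j hj hi ?_
  rw [W.act_comp]
  exact h

/-- trivial actions -/
theorem semidirect_trivial {N G : Type} [Group N] [Group G] (φ : G →* MulAut N)
    (hφ : ∀ g n, φ g n = n) (hN : C N) (hG : C G) : C (N ⋊[φ] G) := by
  let f : N ⋊[φ] G →* N × G :=
    { toFun := fun x => (x.left, x.right)
      map_one' := rfl
      map_mul' := fun x y => by
        rw [SemidirectProduct.mul_left, SemidirectProduct.mul_right, hφ]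
        rfl }
  refine hC.inherits.of_injective f ?_ (hC.prod hN hG)
  intro x y hxy
  have h1 : (x.left, x.right) = (y.left, y.right) := hxy
  exact SemidirectProduct.ext (congrArg Prod.fst h1) (congrArg Prod.snd h1)

/-- free products of copies of `H` -/
theorem GP_free (hH : C H) (h0 : ∀ v w, ¬ r v w) : C (GP H r) := by
  have h1 : C (Monoid.CoprodI (fun _ : V => H)) := hC.inherits.coprodI (fun _ => hH)
  let g : GP H r →* Monoid.CoprodI (fun _ : V => H) :=
    GP.lift r (fun v => Monoid.CoprodI.of (M := fun _ : V => H) (i := v))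
      (fun v w h => absurd h (h0 v w))
  refine hC.inherits.of_injective g ?_ h1
  let f : Monoid.CoprodI (fun _ : V => H) →* GP H r := Monoid.CoprodI.lift (GP.of H r)
  have h2 : f.comp g = MonoidHom.id _ := by
    apply GP.hom_ext
    intro v a
    change f (g (GP.of H r v a)) = GP.of H r v a
    rw [GP.lift_of]
    exact Monoid.CoprodI.lift_of _ _
  intro x y hxy
  have hx := DFunLike.congr_fun h2 x
  have hy := DFunLike.congr_fun h2 y
  change f (g x) = x at hx
  change f (g y) = y at hy
  rw [← hx, ← hy, hxy]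

end InheritsExt

/-- multiplication by `M` on the infinite cyclic group -/
def mulZ (M : ℕ) : Multiplicative ℤ →* Multiplicative ℤ :=
  zpowersHom (Multiplicative ℤ) (Multiplicative.ofAdd (M : ℤ))

theorem mulZ_apply (M : ℕ) (k : ℤ) :
    mulZ M (Multiplicative.ofAdd k) = Multiplicative.ofAdd (k * M) := by
  rw [mulZ, zpowersHom_apply, toAdd_ofAdd, ← ofAdd_zsmul, smul_eq_mul]

theorem mulZ_injective {M : ℕ} (hM : M ≠ 0) : Function.Injective (mulZ M) := by
  intro x y hxy
  obtain ⟨a, rfl⟩ := Multiplicative.ofAdd.surjective x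
  obtain ⟨b, rfl⟩ := Multiplicative.ofAdd.surjective y
  rw [mulZ_apply, mulZ_apply] at hxy
  have h := Multiplicative.ofAdd.injective hxy
  have hM' : (M : ℤ) ≠ 0 := by exact_mod_cast hM
  rw [mul_right_cancel₀ hM' h]

theorem mulZ_index {M : ℕ} (hM : M ≠ 0) : (mulZ M).range.FiniteIndex := by
  have : NeZero M := ⟨hM⟩
  let q : Multiplicative ℤ →* Multiplicative (ZMod M) :=
    AddMonoidHom.toMultiplicative (Int.castAddHom (ZMod M))
  have : q.ker.FiniteIndex := Subgroup.finiteIndex_ker q
  refine Subgroup.finiteIndex_of_le (H := q.ker) ?_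
  intro x hx
  obtain ⟨a, rfl⟩ := Multiplicative.ofAdd.surjective x
  have h1 : ((a : ℤ) : ZMod M) = 0 := by
    have h2 : q (Multiplicative.ofAdd a) = 1 := hx
    exact Multiplicative.ofAdd.injective h2
  rw [ZMod.intCast_zmod_eq_zero_iff_dvd] at h1
  obtain ⟨k, rfl⟩ := h1
  exact ⟨Multiplicative.ofAdd k, by rw [mulZ_apply, mul_comm]⟩

namespace InheritsExt

variable {C : (G : Type) → [Group G] → Prop} (hC : InheritsExt C)
include hC

variable {H : Type} [Group H] {V : Type} {r : V → V → Prop}

/-- a power acts trivially -/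
theorem W_periodic {ρ : Multiplicative ℤ →* Equiv.Perm V}
    (hr : ∀ g v w, r v w → r (ρ g v) (ρ g w)) (h0 : ∀ v w, ¬ r v w) (hH : C H) (M : ℕ)
    (hM : M ≠ 0) (h : ∀ v, ρ (Multiplicative.ofAdd (M : ℤ)) v = v) : C (W H r ρ hr) := by
  refine hC.W_index hr (mulZ M) (mulZ_injective hM) (mulZ_index hM) ?_
  refine hC.semidirect_trivial _ ?_ (hC.GP_free hH h0) hC.int
  intro g n
  have h1 : ∀ v, (ρ.comp (mulZ M)) g v = v := by
    intro v
    have h2 : ρ.comp (mulZ M) = 1 := by
      apply MonoidHom.ext_mint
      change ρ (mulZ M (Multiplicative.ofAdd 1)) = 1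
      rw [mulZ_apply, one_mul]
      ext v
      exact h v
    rw [h2]
    rfl
  have h3 : (act (H := H) (ρ.comp (mulZ M)) (fun k => hr (mulZ M k)) g).toMonoidHom =
      MonoidHom.id _ := by
    apply GP.hom_ext
    intro v a
    change act (H := H) (ρ.comp (mulZ M)) (fun k => hr (mulZ M k)) g (GP.of H r v a) = _
    rw [act_of, h1]
    rfl
  exact DFunLike.congr_fun h3 n

end InheritsExt

end Pool.Agent.H44.GW
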