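import Mathlib

/-!
# Graph products of copies of a group and their semidirect products

`GP H r` is the free product of copies of `H` indexed by `V` modulo the relations `[a_v, b_w] = 1` for `r v w`.
For a homomorphism `ρ : G →* Equiv.Perm V` preserving `r`, `W H r ρ hr` is `GP H r ⋊ G`.
-/

set_option autoImplicit false

namespace Pool.Agent.H44.GW

section GP

variable {V V' V'' : Type}

/-- the commutators of the copies of `H` at related points -/
def commSet (H : Type) [Group H] (r : V → V → Prop) : Set (Monoid.CoprodI (fun _ : V => H)) :=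
  {x | ∃ v w : V, r v w ∧ ∃ a b : H,
    x = Monoid.CoprodI.of (M := fun _ : V => H) (i := v) a *
      Monoid.CoprodI.of (M := fun _ : V => H) (i := w) b *
      (Monoid.CoprodI.of (M := fun _ : V => H) (i := v) a)⁻¹ *
      (Monoid.CoprodI.of (M := fun _ : V => H) (i := w) b)⁻¹}

/-- The graph product of copies of `H`: the free product of the copies of `H` indexed by `V`, modulo the commutators of
the copies at related points. -/
abbrev GP (H : Type) [Group H] (r : V → V → Prop) : Type :=
  Monoid.CoprodI (fun _ : V => H) ⧸ Subgroup.normalClosure (commSet H r)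

variable (H : Type) [Group H]

namespace GP

/-- the copy of `H` at `v` -/
def of (r : V → V → Prop) (v : V) : H →* GP H r :=
  (QuotientGroup.mk' _).comp (Monoid.CoprodI.of (M := fun _ : V => H) (i := v))

variable {H}

theorem of_commute (r : V → V → Prop) {v w : V} (h : r v w) (a b : H) :
    of H r v a * of H r w b = of H r w b * of H r v a := by
  have h1 : Monoid.CoprodI.of (M := fun _ : V => H) (i := v) a *
      Monoid.CoprodI.of (M := fun _ : V => H) (i := w) b *
      (Monoid.CoprodI.of (M := fun _ : V => H) (i := v) a)⁻¹ *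
      (Monoid.CoprodI.of (M := fun _ : V => H) (i := w) b)⁻¹ ∈
      Subgroup.normalClosure (commSet H r) :=
    Subgroup.subset_normalClosure ⟨v, w, h, a, b, rfl⟩
  have h2 := (QuotientGroup.eq_one_iff _).2 h1
  have h3 : of H r v a * of H r w b * (of H r v a)⁻¹ * (of H r w b)⁻¹ = 1 := h2
  rw [mul_inv_eq_one, mul_inv_eq_iff_eq_mul] at h3
  exact h3

/-- homomorphisms out of the graph product -/
def lift (r : V → V → Prop) {K : Type} [Group K] (f : V → H →* K)
    (h : ∀ v w, r v w → ∀ a b, f v a * f w b = f w b * f v a) : GP H r →* K :=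
  QuotientGroup.lift _ (Monoid.CoprodI.lift (M := fun _ : V => H) f) (by
    intro x hx
    have h1 : Subgroup.normalClosure (commSet H r) ≤
        (Monoid.CoprodI.lift (M := fun _ : V => H) f).ker := by
      apply Subgroup.normalClosure_le_normal
      rintro y ⟨v, w, hvw, a, b, rfl⟩
      change _ = _
      rw [map_mul, map_mul, map_mul, map_inv, map_inv, Monoid.CoprodI.lift_of,
        Monoid.CoprodI.lift_of, mul_inv_eq_one, mul_inv_eq_iff_eq_mul]
      exact h v w hvw a b
    exact h1 hx)

@[simp]
theorem lift_of (r : V → V → Prop) {K : Type} [Group K] (f : V → H →* K)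
    (h : ∀ v w, r v w → ∀ a b, f v a * f w b = f w b * f v a) (v : V) (a : H) :
    lift r f h (of H r v a) = f v a :=
  Monoid.CoprodI.lift_of _ _

theorem hom_ext {r : V → V → Prop} {K : Type} [Group K] {f g : GP H r →* K}
    (h : ∀ v a, f (of H r v a) = g (of H r v a)) : f = g := by
  apply QuotientGroup.monoidHom_ext
  apply Monoid.CoprodI.ext_hom
  intro v
  ext a
  exact h v a

/-- functoriality -/
def map {r : V → V → Prop} {s : V' → V' → Prop} (σ : V → V')
    (h : ∀ v w, r v w → s (σ v) (σ w)) : GP H r →* GP H s :=
  lift r (fun v => of H s (σ v)) (fun v w hvw a b => of_commute s (h v w hvw) a b)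

@[simp]
theorem map_of {r : V → V → Prop} {s : V' → V' → Prop} (σ : V → V')
    (h : ∀ v w, r v w → s (σ v) (σ w)) (v : V) (a : H) :
    map σ h (of H r v a) = of H s (σ v) a :=
  lift_of _ _ _ _ _

end GP

variable {H}

/-- the action of a group on the graph product -/
def act {r : V → V → Prop} {G : Type} [Group G] (ρ : G →* Equiv.Perm V)
    (hr : ∀ g v w, r v w → r (ρ g v) (ρ g w)) : G →* MulAut (GP H r) where
  toFun g :=
    { GP.map (ρ g) (hr g) with
      invFun := GP.map (ρ g⁻¹) (hr g⁻¹)
      left_inv := by
        intro x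
        have h : (GP.map (H := H) (ρ g⁻¹) (hr g⁻¹)).comp (GP.map (ρ g) (hr g)) =
            MonoidHom.id _ := by
          apply GP.hom_ext
          intro v a
          simp
        exact DFunLike.congr_fun h x
      right_inv := by
        intro x
        have h : (GP.map (H := H) (ρ g) (hr g)).comp (GP.map (ρ g⁻¹) (hr g⁻¹)) =
            MonoidHom.id _ := by
          apply GP.hom_ext
          intro v a
          simp
        exact DFunLike.congr_fun h x }
  map_one' := by
    ext x
    have h : (GP.map (H := H) (ρ 1) (hr 1)) = MonoidHom.id _ := by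
      apply GP.hom_ext
      intro v a
      simp
    exact DFunLike.congr_fun h x
  map_mul' := by
    intro g g'
    ext x
    have h : (GP.map (H := H) (ρ (g * g')) (hr (g * g'))) =
        (GP.map (ρ g) (hr g)).comp (GP.map (ρ g') (hr g')) := by
      apply GP.hom_ext
      intro v a
      simp
    exact DFunLike.congr_fun h x

theorem act_of {r : V → V → Prop} {G : Type} [Group G] (ρ : G →* Equiv.Perm V)
    (hr : ∀ g v w, r v w → r (ρ g v) (ρ g w)) (g : G) (v : V) (a : H) :
    act (H := H) ρ hr g (GP.of H r v a) = GP.of H r (ρ g v) a :=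
  GP.map_of (s := r) (ρ g) (hr g) v a

end GP

/-- The semidirect product of a graph product with a group acting on the graph. -/
abbrev W (H : Type) [Group H] {V : Type} (r : V → V → Prop) {G : Type} [Group G]
    (ρ : G →* Equiv.Perm V) (hr : ∀ g v w, r v w → r (ρ g v) (ρ g w)) : Type :=
  GP H r ⋊[act ρ hr] G

namespace W

variable {H : Type} [Group H] {V : Type} {r : V → V → Prop} {G : Type} [Group G]
  {ρ : G →* Equiv.Perm V} (hr : ∀ g v w, r v w → r (ρ g v) (ρ g w))

/-- vertex groups -/
def of (v : V) : H →* W H r ρ hr := SemidirectProduct.inl.comp (GP.of H r v)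

/-- the acting group -/
def emb : G →* W H r ρ hr := SemidirectProduct.inr

theorem of_commute {v w : V} (h : r v w) (a b : H) :
    of hr v a * of hr w b = of hr w b * of hr v a := by
  change SemidirectProduct.inl _ * SemidirectProduct.inl _ =
    SemidirectProduct.inl _ * SemidirectProduct.inl _
  rw [← map_mul, ← map_mul, GP.of_commute r h]

theorem emb_conj (g : G) (v : V) (a : H) :
    emb (H := H) hr g * of hr v a * (emb hr g)⁻¹ = of hr (ρ g v) a := by
  change SemidirectProduct.inr g * SemidirectProduct.inl _ * (SemidirectProduct.inr g)⁻¹ =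
    SemidirectProduct.inl _
  rw [← map_inv, ← SemidirectProduct.inl_aut, act_of]

/-- homomorphisms out of `W` -/
def lift {K : Type} [Group K] (f : V → H →* K) (k : G →* K)
    (h1 : ∀ v w, r v w → ∀ a b, f v a * f w b = f w b * f v a)
    (h2 : ∀ g v a, k g * f v a * (k g)⁻¹ = f (ρ g v) a) : W H r ρ hr →* K :=
  SemidirectProduct.lift (GP.lift r f h1) k (by
    intro g
    apply GP.hom_ext
    intro v a
    change GP.lift r f h1 (act ρ hr g (GP.of H r v a)) =
      k g * GP.lift r f h1 (GP.of H r v a) * (k g)⁻¹
    rw [act_of, GP.lift_of, GP.lift_of, h2])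

@[simp]
theorem lift_of {K : Type} [Group K] (f : V → H →* K) (k : G →* K)
    (h1 : ∀ v w, r v w → ∀ a b, f v a * f w b = f w b * f v a)
    (h2 : ∀ g v a, k g * f v a * (k g)⁻¹ = f (ρ g v) a) (v : V) (a : H) :
    lift hr f k h1 h2 (of hr v a) = f v a := by
  change SemidirectProduct.lift _ _ _ (SemidirectProduct.inl _) = _
  rw [SemidirectProduct.lift_inl, GP.lift_of]

@[simp]
theorem lift_emb {K : Type} [Group K] (f : V → H →* K) (k : G →* K)
    (h1 : ∀ v w, r v w → ∀ a b, f v a * f w b = f w b * f v a)
    (h2 : ∀ g v a, k g * f v a * (k g)⁻¹ = f (ρ g v) a) (g : G) :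
    lift hr f k h1 h2 (emb hr g) = k g :=
  SemidirectProduct.lift_inr _ _ _ _

theorem hom_ext {K : Type} [Group K] {f g : W H r ρ hr →* K}
    (h1 : ∀ v a, f (of hr v a) = g (of hr v a)) (h2 : ∀ x, f (emb hr x) = g (emb hr x)) :
    f = g := by
  apply SemidirectProduct.hom_ext
  · apply GP.hom_ext
    intro v a
    exact h1 v a
  · ext x
    exact h2 x

/-- a homomorphism with a left inverse on the generators is injective -/
theorem injective_of {K : Type} [Group K] (f : W H r ρ hr →* K) (g : K →* W H r ρ hr)
    (h1 : ∀ v a, g (f (of hr v a)) = of hr v a) (h2 : ∀ x, g (f (emb hr x)) = emb hr x) :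
    Function.Injective f := by
  have h : g.comp f = MonoidHom.id _ := hom_ext hr h1 h2
  intro x y hxy
  have h3 : g (f x) = g (f y) := by rw [hxy]
  have hx := DFunLike.congr_fun h x
  have hy := DFunLike.congr_fun h y
  change g (f x) = x at hx
  change g (f y) = y at hy
  rw [← hx, ← hy, h3]

end W

end Pool.Agent.H44.GW
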