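import Pool.Agent.H44.GW.Family

/-!
# Graph wreath products and the inheritance properties of the Farrell-Jones conjecture

Let `C` be any class of groups with the inheritance properties proved for the class of groups satisfying the
A-theoretic Farrell-Jones conjecture with coefficients and finite wreath products: it contains the finite groups and
the infinite cyclic group and is closed under isomorphism, subgroups, finite direct products, finite free products,
overgroups of finite index, directed colimits, and extensions (a group `E` with a homomorphism to a member `Q` is a
member if the preimages of the virtually cyclic subgroups of `Q` are).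

Let `G` and the groups `H i` be members, let `G` act on the sets `X i`, and let `Γ` be a simple graph on the disjoint
union of the `X i` which `G` preserves. Then the semidirect product of `G` with the graph product over `Γ` of the
groups `H i` at the vertices in `X i`, permuted by `G`, is a member.
-/

set_option autoImplicit false

namespace Pool.Agent.Results.MP_2a547c_gt.GraphWreathProducts

open Pool.Agent.H44.GW

theorem result (C : (G : Type) → [Group G] → Prop) (hC : ClosedClass C)
    (G : Type) [Group G] (hG : C G) (I : Type) (H : I → Type) [∀ i, Group (H i)]
    (hH : ∀ i, C (H i)) (X : I → Type) [∀ i, MulAction G (X i)] (Γ : SimpleGraph (Σ i, X i))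
    (hΓ : ∀ (g : G) (p q : Σ i, X i), Γ.Adj p q → Γ.Adj (move g p) (move g q))
    (φ : G →* MulAut (GraphProduct H Γ))
    (hφ : ∀ (g : G) (p : Σ i, X i) (a : Vx H X p),
      φ g (vertex H Γ p a) = vertex H Γ (move g p) a) :
    C (GraphProduct H Γ ⋊[φ] G) :=
  hC.graphProduct_mem Γ hΓ hH hG φ hφ

end Pool.Agent.Results.MP_2a547c_gt.GraphWreathProducts
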