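import Pool.Agent.H44.GW.Remove2

/-!
# HNN extensions
-/

set_option autoImplicit false

namespace Pool.Agent.H44.GW

open Pool.Agent.H98.FJ HNNExtension

section map

variable {K S : Type} [Group K] [Group S] {A B : Subgroup K} {φ : A ≃* B}
  {A' B' : Subgroup S} {φ' : A' ≃* B'} (f : K →* S) (hA : ∀ k, f k ∈ A' ↔ k ∈ A)
  (hB : ∀ k, f k ∈ B' ↔ k ∈ B)
  (hφ : ∀ a : A, (φ' ⟨f a, (hA a).2 a.2⟩ : S) = f (φ a))

/-- the induced homomorphism of HNN extensions -/
noncomputable def hnnMap : HNNExtension K A B φ →* HNNExtension S A' B' φ' :=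
  HNNExtension.lift (HNNExtension.of.comp f) HNNExtension.t (by
    intro a
    change HNNExtension.t * HNNExtension.of ((⟨f a, (hA a).2 a.2⟩ : A') : S) =
      HNNExtension.of (f (φ a)) * HNNExtension.t
    rw [HNNExtension.t_mul_of, hφ])

theorem hnnMap_of (k : K) : hnnMap f hA hφ (HNNExtension.of k) = HNNExtension.of (f k) :=
  HNNExtension.lift_of _ _ _ _

theorem hnnMap_t : hnnMap f hA hφ HNNExtension.t = HNNExtension.t :=
  HNNExtension.lift_t _ _ _

include hB in
theorem hnnMap_injective (hf : Function.Injective f) :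
    Function.Injective (hnnMap f hA hφ) := by
  rw [injective_iff_map_eq_one]
  intro x hx
  obtain ⟨d⟩ := NormalWord.TransversalPair.nonempty K A B
  obtain ⟨w, rfl⟩ := (NormalWord.equiv φ d).symm.surjective x
  change hnnMap f hA hφ (w.prod φ) = 1 at hx
  change w.prod φ = 1
  -- the image word
  let w' : NormalWord.ReducedWord S A' B' :=
    { head := f w.head
      toList := w.toList.map (fun x => (x.1, f x.2))
      chain := by
        rw [List.isChain_map]
        refine w.chain.imp ?_
        intro a b hab h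
        apply hab
        have h' : f a.2 ∈ toSubgroup A' B' a.1 := h
        rcases Int.units_eq_one_or a.1 with h1 | h1
        · rw [h1] at h' ⊢
          exact (hA _).1 h'
        · rw [h1] at h' ⊢
          exact (hB _).1 h' }
  have hw : w'.prod φ' = hnnMap f hA hφ (w.prod φ) := by
    have h1 : ∀ l : List (ℤˣ × K), hnnMap f hA hφ
        (l.map (fun x => (HNNExtension.t : HNNExtension K A B φ) ^ (x.1 : ℤ) *
          HNNExtension.of x.2)).prod =
        ((l.map (fun x => ((x.1, f x.2) : ℤˣ × S))).map
          (fun x => (HNNExtension.t : HNNExtension S A' B' φ') ^ (x.1 : ℤ) *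
          HNNExtension.of x.2)).prod := by
      intro l
      induction l with
      | nil => simp
      | cons a l ih =>
        rw [List.map_cons, List.map_cons, List.map_cons, List.prod_cons, List.prod_cons, map_mul,
          ih, map_mul, map_zpow, hnnMap_t, hnnMap_of]
    change HNNExtension.of (f w.head) * _ = hnnMap f hA hφ (HNNExtension.of w.head * _)
    rw [map_mul, hnnMap_of, h1]
  have h2 : w'.toList = [] := by
    refine ReducedWord.toList_eq_nil_of_mem_of_range φ' w' ?_
    rw [hw, hx]
    exact one_mem _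
  have h3 : w.toList = [] := by
    have h4 : w.toList.map (fun x => ((x.1, f x.2) : ℤˣ × S)) = [] := h2
    exact List.map_eq_nil_iff.1 h4
  have h5 : w.prod φ = HNNExtension.of w.head := by
    change HNNExtension.of w.head * (w.toList.map _).prod = _
    rw [h3, List.map_nil, List.prod_nil, mul_one]
  rw [h5] at hx ⊢
  rw [hnnMap_of] at hx
  have h6 : f w.head = 1 := HNNExtension.of_injective φ' (by rw [hx, map_one])
  have h7 : w.head = 1 := hf (by rw [h6, map_one])
  rw [h7, map_one]

end map

namespace InheritsExt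

variable {C : (G : Type) → [Group G] → Prop} (hC : InheritsExt C)
include hC

/-- HNN extensions where the isomorphism is induced by a conjugation -/
theorem hnn_conj {S : Type} [Group S] (hS : C S) {B B' : Subgroup S} (φ : B ≃* B') (σ : S)
    (hσ : ∀ b : B, σ * b * σ⁻¹ = (φ b : S)) : C (HNNExtension S B B' φ) := by
  let s : (S ⧸ B) → (S ⧸ B) → Prop := fun _ _ => False
  let ρ : S →* Equiv.Perm (S ⧸ B) := MulAction.toPermHom S (S ⧸ B)
  have hs : ∀ g v w, s v w → s (ρ g v) (ρ g w) := fun g v w h => h
  have hW : C (W (Multiplicative ℤ) s ρ hs) := hC.W_free hs (fun v w h => h) hC.int hS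
  let x0 : S ⧸ B := ((1 : S) : S ⧸ B)
  have hρ : ∀ g : S, ρ g x0 = ((g : S) : S ⧸ B) := by
    intro g
    change g • ((1 : S) : S ⧸ B) = _
    rw [MulAction.Quotient.smul_coe, smul_eq_mul, mul_one]
  have hfix : ∀ g : S, ρ g x0 = x0 ↔ g ∈ B := by
    intro g
    rw [hρ]
    constructor
    · intro h
      have h1 := QuotientGroup.eq.1 h
      rw [mul_one] at h1
      exact (inv_mem_iff (x := g)).1 h1
    · intro h
      exact QuotientGroup.eq.2 (by rw [mul_one]; exact inv_mem h)
  let z : Multiplicative ℤ := Multiplicative.ofAdd 1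
  let F : HNNExtension S B B' φ →* W (Multiplicative ℤ) s ρ hs :=
    HNNExtension.lift (W.emb hs) (W.emb hs σ * W.of hs x0 z) (by
      intro b
      have h1 := W.emb_conj (H := Multiplicative ℤ) (ρ := ρ) hs (b : S) x0 z
      rw [(hfix b).2 b.2, mul_inv_eq_iff_eq_mul] at h1
      rw [← hσ, map_mul, map_mul, mul_assoc, ← h1, map_inv]
      group)
  obtain ⟨Ψ, hΨ1, hΨ2⟩ := W.exists_liftOrbit (H := Multiplicative ℤ) (ρ := ρ) hs
    (fun v w h => h) (HNNExtension.of : S →* HNNExtension S B B' φ) (fun _ : Unit => x0)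
    (fun _ => zpowersHom _ ((HNNExtension.of σ)⁻¹ * HNNExtension.t)) (by
      intro e _ _ he a
      have hb : e ∈ B := (hfix e).1 he
      have h1 : HNNExtension.of e * ((HNNExtension.of σ)⁻¹ * HNNExtension.t) *
          (HNNExtension.of e)⁻¹ =
          ((HNNExtension.of σ)⁻¹ * HNNExtension.t : HNNExtension S B B' φ) := by
        have h2 : (HNNExtension.t : HNNExtension S B B' φ) * (HNNExtension.of e)⁻¹ =
            (HNNExtension.of (σ * e * σ⁻¹))⁻¹ * HNNExtension.t := by
          have h3 := HNNExtension.t_mul_of (φ := φ) (⟨e, hb⟩ : B)⁻¹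
          rw [← hσ] at h3
          have h4 : (((⟨e, hb⟩ : B)⁻¹ : B) : S) = e⁻¹ := rfl
          rw [h4] at h3
          rw [← map_inv, h3, ← map_inv]
          congr 2
          group
        rw [mul_assoc, mul_assoc, h2, map_mul, map_mul, map_inv]
        group
      rw [zpowersHom_apply]
      have h5 := MulAut.conj_apply (HNNExtension.of e : HNNExtension S B B' φ)
        (((HNNExtension.of σ)⁻¹ * HNNExtension.t) ^ Multiplicative.toAdd a)
      rw [← h5, map_zpow, MulAut.conj_apply, h1])
  refine hC.inherits.of_injective F ?_ hW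
  have h6 : Ψ.comp F = MonoidHom.id _ := by
    apply HNNExtension.hom_ext
    · ext b
      change Ψ (F (HNNExtension.of b)) = HNNExtension.of b
      rw [HNNExtension.lift_of, hΨ2]
    · change Ψ (F HNNExtension.t) = HNNExtension.t
      rw [HNNExtension.lift_t, map_mul, hΨ2]
      have h7 := hΨ1 () z
      rw [h7, zpowersHom_apply]
      change HNNExtension.of σ * ((HNNExtension.of σ)⁻¹ * HNNExtension.t) ^ (1 : ℤ) = _
      rw [zpow_one, mul_inv_cancel_left]
  intro x y hxy
  have hx := DFunLike.congr_fun h6 x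
  have hy := DFunLike.congr_fun h6 y
  change Ψ (F x) = x at hx
  change Ψ (F y) = y at hy
  rw [← hx, ← hy, hxy]

end InheritsExt

end Pool.Agent.H44.GW
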