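import Pool.Agent.H44.GW.Zext

/-!
# Extensions with hyper-(abelian or locally finite) kernels
-/

set_option autoImplicit false

namespace Pool.Agent.H44.GW

open Pool.Agent.H98.FJ

/-- commutative groups -/
def Ab (A : Type) [Group A] : Prop := ∀ a b : A, a * b = b * a

theorem Ab.of_injective {A B : Type} [Group A] [Group B] (f : A →* B)
    (hf : Function.Injective f) (h : Ab B) : Ab A := fun a b =>
  hf (by rw [map_mul, map_mul, h])

theorem LF.of_injective {A B : Type} [Group A] [Group B] (f : A →* B)
    (hf : Function.Injective f) (h : LF B) : LF A := by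
  intro s hs
  obtain ⟨K, hK, h1⟩ := h (f '' s) (hs.image f)
  refine ⟨K.comap f, ?_, ?_⟩
  · exact Finite.of_injective (fun x : K.comap f => (⟨f x.1, x.2⟩ : K))
      (fun x y hxy => Subtype.ext (hf (congrArg Subtype.val hxy)))
  · intro x hx
    exact h1 ⟨x, hx, rfl⟩

namespace InheritsExt

variable {C : (G : Type) → [Group G] → Prop} (hC : InheritsExt C)
include hC

theorem locFin {A : Type} [Group A] (h : LF A) : C A :=
  hC.inherits.locallyFinite (fun s => h s s.finite_toSet)

/-- cyclic groups -/
theorem cyclic {G : Type} [Group G] (g : G) (h : ∀ x, x ∈ Subgroup.zpowers g) : C G := by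
  have hs : Function.Surjective (zpowersHom G g) := by
    intro x
    obtain ⟨k, hk⟩ := Subgroup.mem_zpowers_iff.1 (h x)
    exact ⟨Multiplicative.ofAdd k, by simpa using hk⟩
  by_cases hg : IsOfFinOrder g
  · refine hC.fin G ?_
    have h1 : (Subgroup.zpowers g : Set G).Finite := finite_zpowers.2 hg
    have h2 : (Set.univ : Set G).Finite := h1.subset (fun x _ => h x)
    exact Set.finite_univ_iff.1 h2
  · have hinj : Function.Injective (zpowersHom G g) := by
      intro x y hxy
      have h1 : g ^ (Multiplicative.toAdd x) = g ^ (Multiplicative.toAdd y) := by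
        simpa using hxy
      exact Multiplicative.toAdd.injective
        (injective_zpow_iff_not_isOfFinOrder.2 hg h1)
    exact hC.iso _ _ (MulEquiv.ofBijective (zpowersHom G g) ⟨hinj, hs⟩) hC.int

/-- the extension property, for cyclic subgroups -/
theorem ext_cyclic {E Q : Type} [Group E] [Group Q] (f : E →* Q) (hf : Function.Surjective f)
    (hQ : C Q) (h : ∀ g : Q, C ((Subgroup.zpowers g).comap f)) : C E := by
  refine hC.ext E Q f hQ ?_
  rintro V ⟨g, hg⟩
  have hle : Subgroup.zpowers (g : Q) ≤ V := by
    rw [Subgroup.zpowers_le]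
    exact g.2
  have hsub : (Subgroup.zpowers (g : Q)).subgroupOf V = Subgroup.zpowers g := by
    ext x
    rw [Subgroup.mem_subgroupOf, Subgroup.mem_zpowers_iff, Subgroup.mem_zpowers_iff]
    constructor
    · rintro ⟨k, hk⟩
      exact ⟨k, Subtype.ext (by simpa using hk)⟩
    · rintro ⟨k, hk⟩
      exact ⟨k, by rw [← hk]; simp⟩
  have hidx : (Subgroup.zpowers (g : Q)).relIndex V ≠ 0 := by
    have h1 : ((Subgroup.zpowers (g : Q)).subgroupOf V).index ≠ 0 := by
      rw [hsub]
      exact hg.index_ne_zero
    exact h1
  exact hC.comap_relIndex f hf _ V hle hidx (h g)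

/-- extensions with abelian or locally finite kernel -/
theorem onestep (hsol : ∀ (G : Type) [Group G], Group.IsSolvable G → C G) {E Q : Type} [Group E]
    [Group Q] (q : E →* Q) (hq : Function.Surjective q) (hQ : C Q)
    (hA : Ab q.ker ∨ LF q.ker) : C E := by
  refine hC.ext_cyclic q hq hQ ?_
  intro g
  rcases hA with hA | hA
  · -- the preimage is solvable
    apply hsol
    let D : Subgroup E := (Subgroup.zpowers g).comap q
    let q' : D →* Subgroup.zpowers g := (q.comp D.subtype).codRestrict (Subgroup.zpowers g)
      (fun x => x.2)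
    have h1 : Group.IsSolvable (Subgroup.zpowers g) := Group.isSolvable_of_comm (by
      rintro ⟨x, hx⟩ ⟨y, hy⟩
      obtain ⟨m, rfl⟩ := Subgroup.mem_zpowers_iff.1 hx
      obtain ⟨n, rfl⟩ := Subgroup.mem_zpowers_iff.1 hy
      apply Subtype.ext
      change g ^ m * g ^ n = g ^ n * g ^ m
      rw [← zpow_add, ← zpow_add, add_comm])
    have h2 : Group.IsSolvable q'.ker := Group.isSolvable_of_comm (by
      intro x y
      have hx : q x.1.1 = 1 := congrArg Subtype.val x.2
      have hy : q y.1.1 = 1 := congrArg Subtype.val y.2
      have h3 := congrArg Subtype.val (hA ⟨x.1.1, hx⟩ ⟨y.1.1, hy⟩)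
      exact Subtype.ext (Subtype.ext h3))
    exact Group.isSolvable_of_ker_le_range q'.ker.subtype q' (by rw [Subgroup.range_subtype])
  · obtain ⟨u, rfl⟩ := hq g
    by_cases hfin : IsOfFinOrder (q u)
    · refine hC.comap_relIndex q hq ⊥ _ bot_le ?_ ?_
      · have h3 : Finite (Subgroup.zpowers (q u)) := finite_zpowers.2 hfin
        rw [Subgroup.relIndex_bot_left]
        exact Nat.card_pos.ne'
      · exact hC.locFin hA
    · let φ : Multiplicative ℤ →* MulAut q.ker := MulAut.conjNormal.comp (zpowersHom E u)
      let Θ : q.ker ⋊[φ] Multiplicative ℤ →* E :=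
        SemidirectProduct.lift q.ker.subtype (zpowersHom E u) (by
          intro n
          apply MonoidHom.ext
          intro a
          change ((MulAut.conjNormal (zpowersHom E u n) a : q.ker) : E) = _
          rw [MulAut.conjNormal_apply]
          rfl)
      have hΘ : ∀ (a : q.ker) (n : ℤ), Θ ⟨a, Multiplicative.ofAdd n⟩ = a * u ^ n := by
        intro a n
        rw [SemidirectProduct.mk_eq_inl_mul_inr, map_mul]
        change SemidirectProduct.lift _ _ _ (SemidirectProduct.inl a) *
          SemidirectProduct.lift _ _ _ (SemidirectProduct.inr (Multiplicative.ofAdd n)) = _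
        rw [SemidirectProduct.lift_inl, SemidirectProduct.lift_inr, zpowersHom_apply, toAdd_ofAdd]
        rfl
      have hinj : Function.Injective Θ := by
        rw [injective_iff_map_eq_one]
        rintro ⟨a, n⟩ h
        obtain ⟨n, rfl⟩ := Multiplicative.ofAdd.surjective n
        rw [hΘ] at h
        have h1 : q u ^ n = 1 := by
          have h2 := congrArg q h
          have h3 : q (a : E) = 1 := a.2
          rw [map_mul, h3, one_mul, map_zpow, map_one] at h2
          exact h2
        have h2 : n = 0 := by
          have h3 := injective_zpow_iff_not_isOfFinOrder.2 hfin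
          exact h3 (by change q u ^ n = q u ^ (0 : ℤ); rw [h1, zpow_zero])
        subst h2
        rw [zpow_zero, mul_one] at h
        have h3 : a = 1 := Subtype.ext h
        rw [h3]
        rfl
      have hr : Θ.range = (Subgroup.zpowers (q u)).comap q := by
        ext x
        constructor
        · rintro ⟨⟨a, n⟩, rfl⟩
          obtain ⟨n, rfl⟩ := Multiplicative.ofAdd.surjective n
          rw [hΘ, Subgroup.mem_comap, map_mul]
          have h3 : q (a : E) = 1 := a.2
          rw [h3, one_mul, map_zpow]
          exact Subgroup.zpow_mem_zpowers _ n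
        · intro hx
          obtain ⟨n, hn⟩ := Subgroup.mem_zpowers_iff.1 (Subgroup.mem_comap.1 hx)
          refine ⟨⟨⟨x * (u ^ n)⁻¹, ?_⟩, Multiplicative.ofAdd n⟩, ?_⟩
          · rw [MonoidHom.mem_ker, map_mul, map_inv, map_zpow, hn, mul_inv_cancel]
          · rw [hΘ]
            exact inv_mul_cancel_right x (u ^ n)
      rw [← hr]
      exact hC.iso _ _ (MonoidHom.ofInjective hinj) (hC.semidirect_LF hA φ)

end InheritsExt

end Pool.Agent.H44.GW
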