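import Pool.Agent.H44.GW.ClassDefs

/-!
# Normal subgroups with ascending series whose factors are abelian, locally finite or acted on by locally inner
automorphisms
-/

set_option autoImplicit false

namespace Pool.Agent.H44.GW

/-- commutative groups -/
def IsAbelian (A : Type) [Group A] : Prop := ∀ a b : A, a * b = b * a

/-- locally finite groups: every finite subset lies in a finite subgroup -/
def LocFin (A : Type) [Group A] : Prop :=
  ∀ s : Set A, s.Finite → ∃ K : Subgroup A, Finite K ∧ s ⊆ K

/-- `E` acts on its subgroup `A` by locally inner automorphisms: on every finite subset of `A` the conjugation by an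
element of `E` agrees with the conjugation by an element of `A`. -/
def LocInner {E : Type} [Group E] (A : Subgroup E) : Prop :=
  ∀ (e : E) (s : Set E), s.Finite → s ⊆ A → ∃ a ∈ A, ∀ x ∈ s, e * x * e⁻¹ = a * x * a⁻¹

/-- The normal subgroup `N` of `E` is hyper-(abelian, or locally finite, or in the class `C` and acted on by locally inner
automorphisms): for every normal subgroup `M` of `E` which is properly contained in `N` there is a larger normal subgroup
`M'` of `E` contained in `N` such that `M' / M` is abelian, or is locally finite, or belongs to `C` and is acted on by
`E / M` by locally inner automorphisms. -/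
def IsHyper (C : (G : Type) → [Group G] → Prop) {E : Type} [Group E] (N : Subgroup E) : Prop :=
  ∀ (M : Subgroup E) [M.Normal], M < N → ∃ M' : Subgroup E, M'.Normal ∧ M < M' ∧ M' ≤ N ∧
    (IsAbelian (M'.map (QuotientGroup.mk' M)) ∨ LocFin (M'.map (QuotientGroup.mk' M)) ∨
      (C (M'.map (QuotientGroup.mk' M)) ∧ LocInner (M'.map (QuotientGroup.mk' M))))

end Pool.Agent.H44.GW
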