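import Pool.Agent.H44.GW.Series

/-!
# Extensions whose kernel is acted on by locally inner automorphisms
-/

set_option autoImplicit false

namespace Pool.Agent.H44.GW

open Pool.Agent.H98.FJ

namespace InheritsExt

variable {C : (G : Type) → [Group G] → Prop} (hC : InheritsExt C)
include hC

/-- HNN extensions of subgroups of members, the isomorphism being induced by a conjugation of the member -/
theorem hnn_embed {K S : Type} [Group K] [Group S] (hS : C S) (l : K →* S)
    (hl : Function.Injective l) {B B' : Subgroup K} (φ : B ≃* B') (σ : S)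
    (hσ : ∀ b : B, σ * l b * σ⁻¹ = l (φ b)) : C (HNNExtension K B B' φ) := by
  let eB : B ≃* B.map l := B.equivMapOfInjective l hl
  let eB' : B' ≃* B'.map l := B'.equivMapOfInjective l hl
  let φ' : B.map l ≃* B'.map l := (eB.symm.trans φ).trans eB'
  have hA : ∀ k, l k ∈ B.map l ↔ k ∈ B := fun k => Subgroup.mem_map_iff_mem hl
  have hB : ∀ k, l k ∈ B'.map l ↔ k ∈ B' := fun k => Subgroup.mem_map_iff_mem hl
  have hφ' : ∀ b : B, φ' (eB b) = eB' (φ b) := by
    intro b
    change eB' (φ (eB.symm (eB b))) = _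
    rw [MulEquiv.symm_apply_apply]
  have hφ : ∀ a : B, (φ' ⟨l a, (hA a).2 a.2⟩ : S) = l (φ a) := by
    intro a
    have h1 : (⟨l a, (hA a).2 a.2⟩ : B.map l) = eB a := rfl
    rw [h1, hφ']
    rfl
  refine hC.inherits.of_injective (hnnMap (φ := φ) (φ' := φ') l hA hφ)
    (hnnMap_injective l hA hB hφ hl) ?_
  refine hC.hnn_conj hS φ' σ ?_
  intro b
  obtain ⟨a, rfl⟩ := eB.surjective b
  rw [hφ']
  exact hσ a

open HNNExtension in
/-- Extensions of the infinite cyclic group: it suffices that the HNN extensions along finitely generated subgroups are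
members. -/
theorem semidirect_of_hnn {A : Type} [Group A] (φ : Multiplicative ℤ →* MulAut A)
    (hA : ∀ K : Subgroup A, K.FG → C (HNNExtension A K
      (K.map ((φ (Multiplicative.ofAdd 1) : MulAut A) : A →* A))
      ((φ (Multiplicative.ofAdd 1)).subgroupMap K))) :
    C (A ⋊[φ] Multiplicative ℤ) := by
  let α : MulAut A := φ (Multiplicative.ofAdd 1)
  let ι : Type := {K : Subgroup A // K.FG}
  let G : ι → Type := fun K => HNNExtension A K.1 (K.1.map (α : A →* A)) (α.subgroupMap K.1)
  let K0 : ι := ⟨⊥, ⟨∅, by simp⟩⟩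
  have hrel : ∀ (K : ι) (a : A), a ∈ K.1 → (t : G K) * of a = of (α a) * t := fun K a ha =>
    t_mul_of (⟨a, ha⟩ : K.1)
  have hmap : ∀ K L : ι, K ≤ L → ∀ a : K.1, (t : G L) * of (a : A) =
      of ((α.subgroupMap K.1 a : K.1.map (α : A →* A)) : A) * t := fun K L hKL a =>
    hrel L a (hKL a.2)
  let f : ∀ K L : ι, K ≤ L → (G K →* G L) := fun K L hKL =>
    HNNExtension.lift (of : A →* G L) t (hmap K L hKL)
  let ψ : ∀ K : ι, G K →* A ⋊[φ] Multiplicative ℤ := fun K =>
    HNNExtension.lift SemidirectProduct.inl (SemidirectProduct.inr (Multiplicative.ofAdd 1)) (by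
      intro a
      have h1 : (SemidirectProduct.inl (α a) : A ⋊[φ] Multiplicative ℤ) = _ :=
        SemidirectProduct.inl_aut (φ := φ) (Multiplicative.ofAdd 1) (a : A)
      change _ = SemidirectProduct.inl (α a) * _
      have h2 : (SemidirectProduct.inr (1 : Multiplicative ℤ) : A ⋊[φ] Multiplicative ℤ) = 1 :=
        MonoidHom.map_one _
      rw [h1, mul_assoc, ← map_mul, inv_mul_cancel, h2, mul_one])
  have hle : ∀ K : ι, K0 ≤ K := fun K => bot_le (a := K.1)
  let π : ∀ K : ι, G K0 →* G K := fun K => f K0 K (hle K)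
  have hf : ∀ (K L M : ι) (h1 : K ≤ L) (h2 : L ≤ M) (h3 : K ≤ M),
      (f L M h2).comp (f K L h1) = f K M h3 := by
    intro K L M h1 h2 h3
    apply HNNExtension.hom_ext
    · ext a
      change f L M h2 (f K L h1 (of a)) = f K M h3 (of a)
      rw [HNNExtension.lift_of, HNNExtension.lift_of, HNNExtension.lift_of]
    · change f L M h2 (f K L h1 t) = f K M h3 t
      rw [HNNExtension.lift_t, HNNExtension.lift_t, HNNExtension.lift_t]
  have hψ : ∀ (K L : ι) (h1 : K ≤ L), (ψ L).comp (f K L h1) = ψ K := by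
    intro K L h1
    apply HNNExtension.hom_ext
    · ext1 a
      change ψ L (f K L h1 (of a)) = ψ K (of a)
      rw [HNNExtension.lift_of, HNNExtension.lift_of, HNNExtension.lift_of]
    · change ψ L (f K L h1 t) = ψ K t
      rw [HNNExtension.lift_t, HNNExtension.lift_t, HNNExtension.lift_t]
  have hdir : IsDirectedOrder ι := by
    refine ⟨?_⟩
    intro K L
    exact ⟨⟨K.1 ⊔ L.1, Subgroup.FG.sup K.2 L.2⟩, le_sup_left (a := K.1), le_sup_right (b := L.1)⟩
  have hne : Nonempty ι := ⟨K0⟩
  have hmono : ∀ K L : ι, K ≤ L → (π K).ker ≤ (π L).ker := by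
    intro K L hKL x hx
    have h1 : π K x = 1 := hx
    have h2 : f K L hKL (π K x) = π L x := DFunLike.congr_fun (hf K0 K L (hle K) hKL (hle L)) x
    rw [h1, map_one] at h2
    exact h2.symm
  have hsurj : ∀ K : ι, Function.Surjective (π K) := by
    intro K y
    induction y using HNNExtension.induction_on with
    | of g => exact ⟨of g, HNNExtension.lift_of _ _ _ _⟩
    | t => exact ⟨t, HNNExtension.lift_t _ _ _⟩
    | mul x y hx hy =>
      obtain ⟨a, rfl⟩ := hx
      obtain ⟨b, rfl⟩ := hy
      exact ⟨a * b, map_mul _ _ _⟩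
    | inv x hx =>
      obtain ⟨a, rfl⟩ := hx
      exact ⟨a⁻¹, map_inv _ _⟩
  refine hC.inherits.quot (ψ K0) ?_ (fun K => (π K).ker) hmono ?_ ?_ ?_
  · rintro ⟨a, g⟩
    obtain ⟨n, rfl⟩ := Multiplicative.ofAdd.surjective g
    refine ⟨of a * t ^ n, ?_⟩
    rw [map_mul, map_zpow]
    change ψ K0 (of a) * (ψ K0 t) ^ n = _
    rw [HNNExtension.lift_of, HNNExtension.lift_t, ← map_zpow, ← ofAdd_zsmul, smul_eq_mul, mul_one]
    exact (SemidirectProduct.mk_eq_inl_mul_inr _ _).symm
  · intro K x hx
    have h1 : π K x = 1 := hx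
    have h2 : ψ K (π K x) = ψ K0 x := DFunLike.congr_fun (hψ K0 K (hle K)) x
    rw [h1, map_one] at h2
    exact h2.symm
  · intro x hx
    let U : Subgroup (G K0) :=
      { carrier := {x | ∃ K, x ∈ (π K).ker}
        one_mem' := ⟨K0, one_mem _⟩
        mul_mem' := by
          rintro x y ⟨K, hx⟩ ⟨L, hy⟩
          obtain ⟨M, h1, h2⟩ := hdir.directed K L
          exact ⟨M, mul_mem (hmono K M h1 hx) (hmono L M h2 hy)⟩
        inv_mem' := by
          rintro x ⟨K, hx⟩
          exact ⟨K, inv_mem hx⟩ }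
    have hU : U.Normal := by
      refine ⟨?_⟩
      rintro x ⟨K, hx⟩ g
      exact ⟨K, (inferInstance : (π K).ker.Normal).conj_mem x hx g⟩
    let Φ : A ⋊[φ] Multiplicative ℤ →* G K0 ⧸ U :=
      liftZ φ ((QuotientGroup.mk' U).comp of) (QuotientGroup.mk' U t) (by
        intro a
        change QuotientGroup.mk' U t * QuotientGroup.mk' U (of a) =
          QuotientGroup.mk' U (of (α a)) * QuotientGroup.mk' U t
        rw [← map_mul, ← map_mul]
        change ((t * of a : G K0) : G K0 ⧸ U) = ((of (α a) * t : G K0) : G K0 ⧸ U)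
        rw [QuotientGroup.eq]
        let K1 : ι := ⟨Subgroup.closure {a}, ⟨{a}, by simp⟩⟩
        refine ⟨K1, ?_⟩
        rw [MonoidHom.mem_ker, map_mul, map_inv, inv_mul_eq_one, map_mul, map_mul]
        have e1 : ∀ b, π K1 (of b) = of b := fun b => HNNExtension.lift_of _ _ _ _
        have e2 : π K1 t = t := HNNExtension.lift_t _ _ _
        rw [e1, e1, e2]
        exact hrel K1 a (Subgroup.subset_closure rfl))
    have h1 : Φ.comp (ψ K0) = QuotientGroup.mk' U := by
      apply HNNExtension.hom_ext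
      · ext1 a
        change Φ (ψ K0 (of a)) = _
        rw [HNNExtension.lift_of, liftZ_inl]
      · change Φ (ψ K0 t) = _
        rw [HNNExtension.lift_t, liftZ_inr]
    have h2 : Φ (ψ K0 x) = QuotientGroup.mk' U x := DFunLike.congr_fun h1 x
    have h3 : ψ K0 x = 1 := hx
    rw [h3, map_one] at h2
    exact (QuotientGroup.eq_one_iff x).1 h2.symm
  · intro K
    exact hC.iso _ _ (QuotientGroup.quotientKerEquivOfSurjective (π K) (hsurj K)).symm (hA K.1 K.2)

/-- extensions of the infinite cyclic group by groups embedded in members such that the automorphism is locally induced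
by inner automorphisms of the members -/
theorem semidirect_local {A : Type} [Group A] (φ : Multiplicative ℤ →* MulAut A)
    (hA : ∀ s : Set A, s.Finite → ∃ (S : Type) (_ : Group S) (l : A →* S) (σ : S), C S ∧
      Function.Injective l ∧ ∀ x ∈ s, l (φ (Multiplicative.ofAdd 1) x) = σ * l x * σ⁻¹) :
    C (A ⋊[φ] Multiplicative ℤ) := by
  refine hC.semidirect_of_hnn φ ?_
  rintro K ⟨s, rfl⟩
  obtain ⟨S, _, l, σ, hS, hl, h⟩ := hA s s.finite_toSet
  refine hC.hnn_embed hS l hl _ σ ?_
  have h1 : ∀ x ∈ Subgroup.closure (s : Set A),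
      l (φ (Multiplicative.ofAdd 1) x) = σ * l x * σ⁻¹ := by
    intro x hx
    have h2 := MonoidHom.eqOn_closure (f := l.comp (φ (Multiplicative.ofAdd 1)).toMonoidHom)
      (g := (MulAut.conj σ).toMonoidHom.comp l) (s := (s : Set A)) (fun x hx => h x hx)
    exact h2 hx
  rintro ⟨b, hb⟩
  exact (h1 b hb).symm

/-- extensions, the kernel being a subgroup of members such that the conjugations are locally induced by inner
automorphisms of the members -/
theorem onestep_local {E Q : Type} [Group E] [Group Q] (q : E →* Q)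
    (hq : Function.Surjective q) (hQ : C Q) (hK : C q.ker)
    (hA : ∀ (u : E) (s : Set q.ker), s.Finite → ∃ (S : Type) (_ : Group S) (l : q.ker →* S)
      (σ : S), C S ∧ Function.Injective l ∧
      ∀ x ∈ s, l (MulAut.conjNormal u x) = σ * l x * σ⁻¹) : C E := by
  refine hC.ext_cyclic q hq hQ ?_
  intro g
  obtain ⟨u, rfl⟩ := hq g
  by_cases hfin : IsOfFinOrder (q u)
  · refine hC.comap_relIndex q hq ⊥ _ bot_le ?_ ?_
    · have h3 : Finite (Subgroup.zpowers (q u)) := finite_zpowers.2 hfin
      rw [Subgroup.relIndex_bot_left]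
      exact Nat.card_pos.ne'
    · exact hK
  · let φ : Multiplicative ℤ →* MulAut q.ker := MulAut.conjNormal.comp (zpowersHom E u)
    let Θ : q.ker ⋊[φ] Multiplicative ℤ →* E :=
      SemidirectProduct.lift q.ker.subtype (zpowersHom E u) (by
        intro n
        apply MonoidHom.ext
        intro a
        change ((MulAut.conjNormal (zpowersHom E u n) a : q.ker) : E) = _
        rw [MulAut.conjNormal_apply]
        rfl)
    have hΘ : ∀ (a : q.ker) (n : ℤ), Θ ⟨a, Multiplicative.ofAdd n⟩ = a * u ^ n := by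
      intro a n
      rw [SemidirectProduct.mk_eq_inl_mul_inr, map_mul]
      change SemidirectProduct.lift _ _ _ (SemidirectProduct.inl a) *
        SemidirectProduct.lift _ _ _ (SemidirectProduct.inr (Multiplicative.ofAdd n)) = _
      rw [SemidirectProduct.lift_inl, SemidirectProduct.lift_inr, zpowersHom_apply, toAdd_ofAdd]
      rfl
    have hinj : Function.Injective Θ := by
      rw [injective_iff_map_eq_one]
      rintro ⟨a, n⟩ h
      obtain ⟨n, rfl⟩ := Multiplicative.ofAdd.surjective n
      rw [hΘ] at h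
      have h1 : q u ^ n = 1 := by
        have h2 := congrArg q h
        have h3 : q (a : E) = 1 := a.2
        rw [map_mul, h3, one_mul, map_zpow, map_one] at h2
        exact h2
      have h2 : n = 0 := by
        have h3 := injective_zpow_iff_not_isOfFinOrder.2 hfin
        exact h3 (by change q u ^ n = q u ^ (0 : ℤ); rw [h1, zpow_zero])
      subst h2
      rw [zpow_zero, mul_one] at h
      have h3 : a = 1 := Subtype.ext h
      rw [h3]
      rfl
    have hr : Θ.range = (Subgroup.zpowers (q u)).comap q := by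
      ext x
      constructor
      · rintro ⟨⟨a, n⟩, rfl⟩
        obtain ⟨n, rfl⟩ := Multiplicative.ofAdd.surjective n
        rw [hΘ, Subgroup.mem_comap, map_mul]
        have h3 : q (a : E) = 1 := a.2
        rw [h3, one_mul, map_zpow]
        exact Subgroup.zpow_mem_zpowers _ n
      · intro hx
        obtain ⟨n, hn⟩ := Subgroup.mem_zpowers_iff.1 (Subgroup.mem_comap.1 hx)
        refine ⟨⟨⟨x * (u ^ n)⁻¹, ?_⟩, Multiplicative.ofAdd n⟩, ?_⟩
        · rw [MonoidHom.mem_ker, map_mul, map_inv, map_zpow, hn, mul_inv_cancel]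
        · rw [hΘ]
          exact inv_mul_cancel_right x (u ^ n)
    rw [← hr]
    refine hC.iso _ _ (MonoidHom.ofInjective hinj) (hC.semidirect_local φ ?_)
    intro s hs
    obtain ⟨S, hS, l, σ, h1, h2, h3⟩ := hA u s hs
    refine ⟨S, hS, l, σ, h1, h2, ?_⟩
    intro x hx
    have h4 : φ (Multiplicative.ofAdd 1) = MulAut.conjNormal u := by
      change MulAut.conjNormal (zpowersHom E u (Multiplicative.ofAdd 1)) = _
      rw [zpowersHom_apply, toAdd_ofAdd, zpow_one]
    rw [h4]
    exact h3 x hx

end InheritsExt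

end Pool.Agent.H44.GW
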