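import Pool.Agent.H44.GW.Free

/-!
# Free products permuted by a group, continued
-/

set_option autoImplicit false

namespace Pool.Agent.H44.GW

open Pool.Agent.H98.FJ

namespace W

variable {H : Type} [Group H] {V : Type} {r : V → V → Prop} {G : Type} [Group G]
  {ρ : G →* Equiv.Perm V} (hr : ∀ g v w, r v w → r (ρ g v) (ρ g w))

/-- the relation restricted to a subset -/
def rel (r : V → V → Prop) (P : V → Prop) : {v // P v} → {v // P v} → Prop :=
  fun a b => r a.1 b.1

include hr in
theorem rel_inv (P : V → Prop) (hP : ∀ g v, P v → P (ρ g v)) (g : G) (v w : {v // P v})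
    (h : rel r P v w) : rel r P (restr ρ P hP g v) (restr ρ P hP g w) :=
  hr g v.1 w.1 h

/-- the inclusion of the part over an invariant subset -/
def incl (P : V → Prop) (hP : ∀ g v, P v → P (ρ g v)) :
    W H (rel r P) (restr ρ P hP) (rel_inv hr P hP) →* W H r ρ hr :=
  lift _ (fun v => of hr v.1) (emb hr)
    (fun v w h a b => of_commute hr h a b)
    (fun g v a => emb_conj hr g v.1 a)

@[simp]
theorem incl_of (P : V → Prop) (hP : ∀ g v, P v → P (ρ g v)) (v : {v // P v}) (a : H) :
    incl hr P hP (of (rel_inv hr P hP) v a) = of hr v.1 a :=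
  lift_of _ _ _ _ _ _ _

@[simp]
theorem incl_emb (P : V → Prop) (hP : ∀ g v, P v → P (ρ g v)) (g : G) :
    incl (H := H) hr P hP (emb (rel_inv hr P hP) g) = emb hr g :=
  lift_emb _ _ _ _ _ _

open Classical in
/-- the vertex maps of the retraction -/
noncomputable def retrF (P : V → Prop) (hP : ∀ g v, P v → P (ρ g v)) (v : V) :
    H →* W H (rel r P) (restr ρ P hP) (rel_inv hr P hP) :=
  if h : P v then of (rel_inv hr P hP) ⟨v, h⟩ else 1

theorem retrF_pos (P : V → Prop) (hP : ∀ g v, P v → P (ρ g v)) {v : V} (h : P v) :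
    retrF (H := H) hr P hP v = of (rel_inv hr P hP) ⟨v, h⟩ := dif_pos h

theorem retrF_neg (P : V → Prop) (hP : ∀ g v, P v → P (ρ g v)) {v : V} (h : ¬ P v) :
    retrF (H := H) hr P hP v = 1 := dif_neg h

omit hr in
theorem inv_iff (P : V → Prop) (hP : ∀ g v, P v → P (ρ g v)) (g : G) (v : V) :
    P (ρ g v) ↔ P v := by
  constructor
  · intro h
    have := hP g⁻¹ _ h
    simpa using this
  · exact hP g v

/-- the retraction to the part over an invariant subset -/
noncomputable def retr (P : V → Prop) (hP : ∀ g v, P v → P (ρ g v)) :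
    W H r ρ hr →* W H (rel r P) (restr ρ P hP) (rel_inv hr P hP) :=
  lift hr (retrF hr P hP) (emb _)
    (fun v w h a b => by
      by_cases hv : P v
      · by_cases hw : P w
        · rw [retrF_pos hr P hP hv, retrF_pos hr P hP hw]
          exact of_commute _ (show rel r P ⟨v, hv⟩ ⟨w, hw⟩ from h) a b
        · rw [retrF_neg hr P hP hw]
          simp
      · rw [retrF_neg hr P hP hv]
        simp)
    (fun g v a => by
      by_cases hv : P v
      · rw [retrF_pos hr P hP hv, retrF_pos hr P hP (hP g v hv)]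
        exact emb_conj _ g _ a
      · rw [retrF_neg hr P hP hv, retrF_neg hr P hP (fun h => hv ((inv_iff P hP g v).1 h))]
        simp)

theorem incl_injective (P : V → Prop) (hP : ∀ g v, P v → P (ρ g v)) :
    Function.Injective (incl (H := H) hr P hP) := by
  apply injective_of _ _ (retr hr P hP)
  · intro v a
    rw [incl_of, retr, lift_of, retrF_pos hr P hP v.2]
  · intro x
    rw [incl_emb, retr, lift_emb]

theorem of_mem_range {P : V → Prop} {hP : ∀ g v, P v → P (ρ g v)} {v : V} (h : P v) (a : H) :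
    of hr v a ∈ (incl (H := H) hr P hP).range :=
  ⟨of (rel_inv hr P hP) ⟨v, h⟩ a, incl_of _ _ _ _ _⟩

end W

namespace InheritsExt

variable {C : (G : Type) → [Group G] → Prop} (hC : InheritsExt C)
include hC

variable {H : Type} [Group H] {V : Type} {r : V → V → Prop}

/-- an increasing union of invariant subsets -/
theorem W_union {G : Type} [Group G] {ρ : G →* Equiv.Perm V}
    (hr : ∀ g v w, r v w → r (ρ g v) (ρ g w)) (P : ℕ → V → Prop)
    (hP : ∀ n g v, P n v → P n (ρ g v)) (mono : ∀ n m, n ≤ m → ∀ v, P n v → P m v)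
    (hU : ∀ v, ∃ n, P n v)
    (h : ∀ n, C (W H (W.rel r (P n)) (restr ρ (P n) (hP n)) (W.rel_inv hr (P n) (hP n)))) :
    C (W H r ρ hr) := by
  have hmono : ∀ n m, n ≤ m → (W.incl (H := H) hr (P n) (hP n)).range ≤
      (W.incl (H := H) hr (P m) (hP m)).range := by
    intro n m hnm
    rintro _ ⟨x, rfl⟩
    have h1 := W.eq_top (W.rel_inv hr (P n) (hP n))
      ((W.incl (H := H) hr (P m) (hP m)).range.comap (W.incl (H := H) hr (P n) (hP n)))
      (fun v a => by
        rw [Subgroup.mem_comap, W.incl_of]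
        exact W.of_mem_range hr (mono n m hnm _ v.2) a)
      (fun g => by
        rw [Subgroup.mem_comap, W.incl_emb]
        exact ⟨_, W.incl_emb _ _ _ _⟩) x
    exact h1
  refine hC.inherits.union (fun n => (W.incl (H := H) hr (P n) (hP n)).range) hmono ?_ ?_
  · intro x
    let S : Subgroup (W H r ρ hr) :=
      { carrier := {x | ∃ n, x ∈ (W.incl (H := H) hr (P n) (hP n)).range}
        one_mem' := ⟨0, one_mem _⟩
        mul_mem' := by
          rintro x y ⟨n, hx⟩ ⟨m, hy⟩
          exact ⟨max n m, mul_mem (hmono n _ (le_max_left _ _) hx)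
            (hmono m _ (le_max_right _ _) hy)⟩
        inv_mem' := by
          rintro x ⟨n, hx⟩
          exact ⟨n, inv_mem hx⟩ }
    exact W.eq_top hr S
      (fun v a => by
        obtain ⟨n, hn⟩ := hU v
        exact ⟨n, W.of_mem_range hr hn a⟩)
      (fun g => ⟨0, _, W.incl_emb _ _ _ _⟩) x
  · intro n
    exact hC.iso _ _ (MonoidHom.ofInjective (W.incl_injective hr (P n) (hP n))) (h n)

/-- all orbits are finite -/
theorem W_finiteOrbits {ρ : Multiplicative ℤ →* Equiv.Perm V}
    (hr : ∀ g v w, r v w → r (ρ g v) (ρ g w)) (h0 : ∀ v w, ¬ r v w) (hH : C H)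
    (h : ∀ v, ∃ M : ℕ, M ≠ 0 ∧ ρ (Multiplicative.ofAdd (M : ℤ)) v = v) :
    C (W H r ρ hr) := by
  have hdvd : ∀ (M N : ℕ) (v : V), M ∣ N → ρ (Multiplicative.ofAdd (M : ℤ)) v = v →
      ρ (Multiplicative.ofAdd (N : ℤ)) v = v := by
    rintro M N v ⟨k, rfl⟩ hv
    have h1 : Multiplicative.ofAdd (((M * k : ℕ) : ℤ)) = (Multiplicative.ofAdd (M : ℤ)) ^ k := by
      rw [← ofAdd_nsmul]
      congr 1
      push_cast
      rw [nsmul_eq_mul, mul_comm]
    rw [h1, map_pow]
    have h2 : ∀ j : ℕ, ((ρ (Multiplicative.ofAdd (M : ℤ))) ^ j) v = v := by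
      intro j
      induction j with
      | zero => rfl
      | succ j ih => rw [pow_succ, Equiv.Perm.mul_apply, hv, ih]
    exact h2 k
  refine hC.W_union hr (fun n v => ρ (Multiplicative.ofAdd ((n.factorial : ℕ) : ℤ)) v = v)
    ?_ ?_ ?_ ?_
  · intro n g v hv
    change ρ _ (ρ g v) = ρ g v
    rw [← Equiv.Perm.mul_apply, ← map_mul, mul_comm, map_mul, Equiv.Perm.mul_apply, hv]
  · intro n m hnm v hv
    exact hdvd _ _ v (Nat.factorial_dvd_factorial hnm) hv
  · intro v
    obtain ⟨M, hM, hv⟩ := h v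
    exact ⟨M, hdvd _ _ v (Nat.dvd_factorial (Nat.pos_of_ne_zero hM) le_rfl) hv⟩
  · intro n
    refine hC.W_periodic _ (fun v w => h0 v.1 w.1) hH n.factorial (Nat.factorial_ne_zero n) ?_
    intro v
    exact Subtype.ext v.2

end InheritsExt

end Pool.Agent.H44.GW
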