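import Pool.Agent.H44.GW.HNN

/-!
# HNN extensions of locally finite groups along finite subgroups
-/

set_option autoImplicit false

namespace Pool.Agent.H44.GW

open Pool.Agent.H98.FJ

/-- the right regular representation -/
def rightReg (K : Type) [Group K] : K →* Equiv.Perm K where
  toFun a := Equiv.mulRight a⁻¹
  map_one' := by
    ext k
    simp
  map_mul' a b := by
    ext k
    simp [mul_assoc]

theorem rightReg_apply {K : Type} [Group K] (a k : K) : rightReg K a k = k * a⁻¹ := rfl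

theorem rightReg_injective (K : Type) [Group K] : Function.Injective (rightReg K) := by
  intro a b hab
  have h : rightReg K a 1 = rightReg K b 1 := by rw [hab]
  rw [rightReg_apply, rightReg_apply, one_mul, one_mul] at h
  exact inv_injective h

/-- isomorphic subgroups of a finite group are conjugate in the group of permutations -/
theorem exists_conj_reg {K : Type} [Group K] [Finite K] {B B' : Subgroup K} (φ : B ≃* B') :
    ∃ σ : Equiv.Perm K, ∀ b : B, σ * rightReg K b * σ⁻¹ = rightReg K (φ b) := by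
  have hcard : Nat.card (K ⧸ B) = Nat.card (K ⧸ B') := by
    have h1 := B.card_eq_card_quotient_mul_card_subgroup
    have h2 := B'.card_eq_card_quotient_mul_card_subgroup
    have h3 : Nat.card B = Nat.card B' := Nat.card_congr φ.toEquiv
    have h4 : 0 < Nat.card B' := Nat.card_pos
    rw [h1, h3] at h2
    exact Nat.eq_of_mul_eq_mul_right h4 h2
  have e : (K ⧸ B) ≃ (K ⧸ B') := (Finite.card_eq.1 hcard).some
  let β : K → B := fun k => ⟨(Quotient.out (k : K ⧸ B))⁻¹ * k,
    QuotientGroup.eq.1 (QuotientGroup.out_eq' (k : K ⧸ B))⟩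
  let σ0 : K → K := fun k => (e (k : K ⧸ B)).out * (φ (β k) : K)
  have hcl : ∀ k, ((σ0 k : K) : K ⧸ B') = e (k : K ⧸ B) := by
    intro k
    have h1 : (((e (k : K ⧸ B)).out * (φ (β k) : K) : K) : K ⧸ B') =
        (((e (k : K ⧸ B)).out : K) : K ⧸ B') := by
      rw [QuotientGroup.eq]
      have h2 : ((e (k : K ⧸ B)).out * (φ (β k) : K))⁻¹ * (e (k : K ⧸ B)).out =
          (φ (β k) : K)⁻¹ := by group
      rw [h2]
      exact inv_mem (φ (β k)).2
    rw [QuotientGroup.out_eq'] at h1
    exact h1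
  have hinj : Function.Injective σ0 := by
    intro k k' h
    have h1 : (k : K ⧸ B) = (k' : K ⧸ B) := by
      apply e.injective
      rw [← hcl, ← hcl, h]
    have h2 : (φ (β k) : K) = (φ (β k') : K) := by
      have h3 : (e (k : K ⧸ B)).out * (φ (β k) : K) = (e (k' : K ⧸ B)).out * (φ (β k') : K) := h
      rw [h1] at h3
      exact mul_left_cancel h3
    have h4 : β k = β k' := φ.injective (Subtype.ext h2)
    have h5 : (Quotient.out (k : K ⧸ B))⁻¹ * k = (Quotient.out (k' : K ⧸ B))⁻¹ * k' :=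
      congrArg Subtype.val h4
    rw [h1] at h5
    exact mul_left_cancel h5
  let σ : Equiv.Perm K := Equiv.ofBijective σ0 (Finite.injective_iff_bijective.1 hinj)
  refine ⟨σ, ?_⟩
  intro b
  rw [mul_inv_eq_iff_eq_mul]
  ext k
  change σ0 (k * (b : K)⁻¹) = σ0 k * (φ b : K)⁻¹
  have h1 : ((k * (b : K)⁻¹ : K) : K ⧸ B) = (k : K ⧸ B) := by
    rw [QuotientGroup.eq]
    have h2 : (k * (b : K)⁻¹)⁻¹ * k = b := by group
    rw [h2]
    exact b.2
  have h2 : β (k * (b : K)⁻¹) = β k * b⁻¹ := by
    apply Subtype.ext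
    change (Quotient.out ((k * (b : K)⁻¹ : K) : K ⧸ B))⁻¹ * (k * (b : K)⁻¹) =
      (Quotient.out (k : K ⧸ B))⁻¹ * k * (b : K)⁻¹
    rw [h1, mul_assoc]
  change (e ((k * (b : K)⁻¹ : K) : K ⧸ B)).out * (φ (β (k * (b : K)⁻¹)) : K) =
    (e (k : K ⧸ B)).out * (φ (β k) : K) * (φ b : K)⁻¹
  rw [h1, h2, map_mul, map_inv]
  change _ * ((φ (β k) : K) * (φ b : K)⁻¹) = _
  rw [mul_assoc]

namespace InheritsExt

variable {C : (G : Type) → [Group G] → Prop} (hC : InheritsExt C)
include hC

/-- HNN extensions of finite groups -/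
theorem hnn_finite {K : Type} [Group K] (hK : Finite K) {B B' : Subgroup K} (φ : B ≃* B') :
    C (HNNExtension K B B' φ) := by
  obtain ⟨σ, hσ⟩ := exists_conj_reg φ
  have hR := rightReg_injective K
  let eB : B ≃* B.map (rightReg K) := B.equivMapOfInjective (rightReg K) hR
  let eB' : B' ≃* B'.map (rightReg K) := B'.equivMapOfInjective (rightReg K) hR
  let φ' : B.map (rightReg K) ≃* B'.map (rightReg K) := (eB.symm.trans φ).trans eB'
  have hA : ∀ k, rightReg K k ∈ B.map (rightReg K) ↔ k ∈ B := fun k =>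
    Subgroup.mem_map_iff_mem hR
  have hB : ∀ k, rightReg K k ∈ B'.map (rightReg K) ↔ k ∈ B' := fun k =>
    Subgroup.mem_map_iff_mem hR
  have hφ' : ∀ b : B, φ' (eB b) = eB' (φ b) := by
    intro b
    change eB' (φ (eB.symm (eB b))) = _
    rw [MulEquiv.symm_apply_apply]
  have hφ : ∀ a : B, (φ' ⟨rightReg K a, (hA a).2 a.2⟩ : Equiv.Perm K) =
      rightReg K (φ a) := by
    intro a
    have h1 : (⟨rightReg K a, (hA a).2 a.2⟩ : B.map (rightReg K)) = eB a := rfl
    rw [h1, hφ']
    rfl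
  refine hC.inherits.of_injective (hnnMap (φ := φ) (φ' := φ') (rightReg K) hA hφ)
    (hnnMap_injective (rightReg K) hA hB hφ hR) ?_
  refine hC.hnn_conj (hC.fin _ inferInstance) φ' σ ?_
  intro b
  obtain ⟨a, rfl⟩ := eB.surjective b
  rw [hφ']
  exact hσ a

/-- HNN extensions of locally finite groups along finite subgroups -/
theorem hnn_locallyFinite {A : Type} [Group A]
    (hA : ∀ s : Set A, s.Finite → ∃ K : Subgroup A, Finite K ∧ s ⊆ K)
    {B B' : Subgroup A} (hB : Finite B) (hB' : Finite B') (φ : B ≃* B') :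
    C (HNNExtension A B B' φ) := by
  let ι : Type := {K : Subgroup A // Finite K ∧ B ≤ K ∧ B' ≤ K}
  -- finite subgroups containing finitely many elements and finitely many subgroups
  have hex : ∀ (s : Set A), s.Finite → ∃ K : ι, s ⊆ K.1 := by
    intro s hs
    obtain ⟨K, hK, h⟩ := hA (s ∪ ((B : Set A) ∪ (B' : Set A)))
      (hs.union ((Set.toFinite _).union (Set.toFinite _)))
    exact ⟨⟨K, hK, fun x hx => h (Or.inr (Or.inl hx)), fun x hx => h (Or.inr (Or.inr hx))⟩,
      fun x hx => h (Or.inl hx)⟩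
  let φK : (K : ι) → B.subgroupOf K.1 ≃* B'.subgroupOf K.1 := fun K =>
    ((Subgroup.subgroupOfEquivOfLe K.2.2.1).trans φ).trans
      (Subgroup.subgroupOfEquivOfLe K.2.2.2).symm
  have h1 : ∀ (K : ι) (k : K.1), K.1.subtype k ∈ B ↔ k ∈ B.subgroupOf K.1 := fun K k => Iff.rfl
  have h2 : ∀ (K : ι) (k : K.1), K.1.subtype k ∈ B' ↔ k ∈ B'.subgroupOf K.1 := fun K k => Iff.rfl
  have h3 : ∀ (K : ι) (a : B.subgroupOf K.1), (φ ⟨K.1.subtype a, (h1 K a).2 a.2⟩ : A) =
      K.1.subtype (φK K a) := by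
    intro K a
    rfl
  let f : (K : ι) → HNNExtension K.1 (B.subgroupOf K.1) (B'.subgroupOf K.1) (φK K) →*
      HNNExtension A B B' φ := fun K => hnnMap K.1.subtype (h1 K) (h3 K)
  have hof : ∀ (K : ι) (a : A), a ∈ K.1 → HNNExtension.of a ∈ (f K).range := fun K a ha =>
    ⟨HNNExtension.of ⟨a, ha⟩, hnnMap_of _ _ _ _⟩
  have ht : ∀ (K : ι), HNNExtension.t ∈ (f K).range := fun K =>
    ⟨HNNExtension.t, hnnMap_t _ _ _⟩
  have hdir : IsDirectedOrder ι := by
    refine ⟨?_⟩
    intro K L
    have hKf : Finite K.1 := K.2.1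
    have hLf : Finite L.1 := L.2.1
    obtain ⟨M, hM⟩ := hex ((K.1 : Set A) ∪ (L.1 : Set A))
      ((Set.toFinite _).union (Set.toFinite _))
    exact ⟨M, fun x hx => hM (Or.inl hx), fun x hx => hM (Or.inr hx)⟩
  have hne : Nonempty ι := by
    obtain ⟨K, _⟩ := hex ∅ Set.finite_empty
    exact ⟨K⟩
  have hmono : ∀ K L : ι, K ≤ L → (f K).range ≤ (f L).range := by
    rintro K L hKL _ ⟨x, rfl⟩
    induction x using HNNExtension.induction_on with
    | of g =>
      have h4 : f K (HNNExtension.of g) = HNNExtension.of (g : A) := hnnMap_of _ _ _ _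
      rw [h4]
      exact hof L _ (hKL g.2)
    | t =>
      have h4 : f K HNNExtension.t = HNNExtension.t := hnnMap_t _ _ _
      rw [h4]
      exact ht L
    | mul x y hx hy =>
      rw [map_mul]
      exact mul_mem hx hy
    | inv x hx =>
      rw [map_inv]
      exact inv_mem hx
  refine hC.inherits.union (fun K : ι => (f K).range) hmono ?_ ?_
  · intro x
    induction x using HNNExtension.induction_on with
    | of g =>
      obtain ⟨K, hK⟩ := hex {g} (Set.finite_singleton g)
      exact ⟨K, hof K g (hK rfl)⟩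
    | t =>
      obtain ⟨K⟩ := hne
      exact ⟨K, ht K⟩
    | mul x y hx hy =>
      obtain ⟨K, hK⟩ := hx
      obtain ⟨L, hL⟩ := hy
      obtain ⟨M, hKM, hLM⟩ := hdir.directed K L
      exact ⟨M, mul_mem (hmono K M hKM hK) (hmono L M hLM hL)⟩
    | inv x hx =>
      obtain ⟨K, hK⟩ := hx
      exact ⟨K, inv_mem hK⟩
  · intro K
    have hinj : Function.Injective (f K) :=
      hnnMap_injective K.1.subtype (h1 K) (h2 K) (h3 K) K.1.subtype_injective
    exact hC.iso _ _ (MonoidHom.ofInjective hinj) (hC.hnn_finite K.2.1 (φK K))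

end InheritsExt

end Pool.Agent.H44.GW
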