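import Pool.Agent.H44.GW.Split

/-!
# Removing an independent set of vertices
-/

set_option autoImplicit false

namespace Pool.Agent.H44.GW

open Pool.Agent.H98.FJ

/-- permutations act on sets -/
def setPerm (α : Type) : Equiv.Perm α →* Equiv.Perm (Set α) where
  toFun σ :=
    { toFun := fun S => {p | σ⁻¹ p ∈ S}
      invFun := fun S => {p | σ p ∈ S}
      left_inv := fun S => by
        ext p
        change σ⁻¹ (σ p) ∈ S ↔ p ∈ S
        rw [← Equiv.Perm.mul_apply, inv_mul_cancel, Equiv.Perm.one_apply]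
      right_inv := fun S => by
        ext p
        change σ (σ⁻¹ p) ∈ S ↔ p ∈ S
        rw [← Equiv.Perm.mul_apply, mul_inv_cancel, Equiv.Perm.one_apply] }
  map_one' := by
    ext S p
    change (1 : Equiv.Perm α)⁻¹ p ∈ S ↔ p ∈ S
    rw [inv_one, Equiv.Perm.one_apply]
  map_mul' σ τ := by
    ext S p
    change (σ * τ)⁻¹ p ∈ S ↔ τ⁻¹ (σ⁻¹ p) ∈ S
    rw [mul_inv_rev, Equiv.Perm.mul_apply]

theorem mem_setPerm {α : Type} (σ : Equiv.Perm α) (S : Set α) (p : α) :
    p ∈ setPerm α σ S ↔ σ⁻¹ p ∈ S := Iff.rfl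

namespace W

section orbit

variable {H : Type} [Group H] {X : Type} {E : Type} [Group E] {ρ : E →* Equiv.Perm X}
  {s : X → X → Prop} (hs : ∀ g v w, s v w → s (ρ g v) (ρ g w)) (h0 : ∀ v w, ¬ s v w)
  {K : Type} [Group K] (ι : E →* K) {O : Type} (x : O → X) (f : O → H →* K)

open Classical in
/-- the vertex maps -/
noncomputable def orbF (ρ : E →* Equiv.Perm X) (y : X) : H →* K :=
  if h : ∃ p : E × O, ρ p.1 (x p.2) = y then
    (MulAut.conj (ι h.choose.1)).toMonoidHom.comp (f h.choose.2) else 1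

variable (h : ∀ e v v', ρ e (x v) = x v' → ∀ a, ι e * f v a * (ι e)⁻¹ = f v' a)
include h

theorem orbF_pos (e : E) (v : O) (a : H) :
    orbF ι x f ρ (ρ e (x v)) a = ι e * f v a * (ι e)⁻¹ := by
  have h1 : ∃ p : E × O, ρ p.1 (x p.2) = ρ e (x v) := ⟨(e, v), rfl⟩
  rw [orbF, dif_pos h1]
  change ι h1.choose.1 * f h1.choose.2 a * (ι h1.choose.1)⁻¹ = _
  have h2 := h1.choose_spec
  set e' := h1.choose.1
  set v' := h1.choose.2
  have h3 : ρ (e⁻¹ * e') (x v') = x v := by
    rw [map_mul, Equiv.Perm.mul_apply, h2, map_inv, Equiv.Perm.inv_eq_iff_eq]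
  have h4 := h _ _ _ h3 a
  rw [← h4, map_mul, map_inv]
  group

omit h in
theorem orbF_neg {y : X} (hy : ¬ ∃ p : E × O, ρ p.1 (x p.2) = y) :
    orbF (H := H) ι x f ρ y = 1 := dif_neg hy

include h0 in
/-- homomorphisms defined on orbits -/
theorem exists_liftOrbit : ∃ Φ : W H s ρ hs →* K,
    (∀ v a, Φ (of hs (x v) a) = f v a) ∧ ∀ e, Φ (emb hs e) = ι e := by
  refine ⟨lift hs (orbF ι x f ρ) ι (fun v w hvw => absurd hvw (h0 v w)) ?_, ?_, ?_⟩
  · intro g y a
    by_cases hy : ∃ p : E × O, ρ p.1 (x p.2) = y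
    · obtain ⟨⟨e, v⟩, rfl⟩ := hy
      rw [orbF_pos ι x f h]
      change _ = orbF ι x f ρ (ρ g (ρ e (x v))) a
      rw [← Equiv.Perm.mul_apply, ← map_mul, orbF_pos ι x f h, map_mul]
      group
    · have hy' : ¬ ∃ p : E × O, ρ p.1 (x p.2) = ρ g y := by
        rintro ⟨⟨e, v⟩, hp⟩
        apply hy
        refine ⟨(g⁻¹ * e, v), ?_⟩
        change ρ (g⁻¹ * e) (x v) = y
        have hp' : ρ e (x v) = ρ g y := hp
        rw [map_mul, Equiv.Perm.mul_apply, hp', map_inv, Equiv.Perm.inv_eq_iff_eq]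
      rw [orbF_neg ι x f hy, orbF_neg ι x f hy']
      simp
  · intro v a
    rw [lift_of]
    have h1 := orbF_pos ι x f h 1 v a
    rw [map_one] at h1
    change orbF ι x f ρ (x v) a = _ at h1
    rw [h1]
    simp
  · intro e
    exact lift_emb _ _ _ _ _ _

end orbit

section remove

variable {H : Type} [Group H] {V : Type} {r : V → V → Prop} {G : Type} [Group G]
  {ρ : G →* Equiv.Perm V} (hr : ∀ g v w, r v w → r (ρ g v) (ρ g w))
  (P : V → Prop) (hP : ∀ g v, P v → P (ρ g v))

/-- the subgroup generated by the vertex groups of the neighbours -/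
def link (H : Type) [Group H] (r : V → V → Prop) (P : V → Prop) (v : V) :
    Subgroup (GP H (rel r P)) :=
  Subgroup.closure {x | ∃ (w : {v // P v}) (a : H), (r v w.1 ∨ r w.1 v) ∧
    x = GP.of H (rel r P) w a}

theorem link_act (g : G) (v : V) {n : GP H (rel r P)} (hn : n ∈ link H r P v) :
    act (restr ρ P hP) (rel_inv hr P hP) g n ∈ link H r P (ρ g v) := by
  have h1 : link H r P v ≤ (link H r P (ρ g v)).comap
      (act (restr ρ P hP) (rel_inv hr P hP) g).toMonoidHom := by
    rw [link, Subgroup.closure_le]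
    rintro _ ⟨w, a, hw, rfl⟩
    change act (restr ρ P hP) (rel_inv hr P hP) g (GP.of H (rel r P) w a) ∈ link H r P (ρ g v)
    rw [act_of]
    refine Subgroup.subset_closure ⟨_, a, ?_, rfl⟩
    rcases hw with hw | hw
    · exact Or.inl (hr g _ _ hw)
    · exact Or.inr (hr g _ _ hw)
  exact h1 hn

/-- the action on pairs, underlying map -/
def pairF (e : W H (rel r P) (restr ρ P hP) (rel_inv hr P hP)) (p : GP H (rel r P) × V) :
    GP H (rel r P) × V :=
  (e.left * act (restr ρ P hP) (rel_inv hr P hP) e.right p.1, ρ e.right p.2)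

theorem pairF_one (p : GP H (rel r P) × V) : pairF hr P hP 1 p = p := by
  simp [pairF]

theorem pairF_mul (e e' : W H (rel r P) (restr ρ P hP) (rel_inv hr P hP))
    (p : GP H (rel r P) × V) : pairF hr P hP (e * e') p = pairF hr P hP e (pairF hr P hP e' p) := by
  simp [pairF, mul_assoc]

/-- the action on pairs -/
def pairPerm : W H (rel r P) (restr ρ P hP) (rel_inv hr P hP) →*
    Equiv.Perm (GP H (rel r P) × V) where
  toFun e :=
    { toFun := pairF hr P hP e
      invFun := pairF hr P hP e⁻¹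
      left_inv := fun p => by rw [← pairF_mul, inv_mul_cancel, pairF_one]
      right_inv := fun p => by rw [← pairF_mul, mul_inv_cancel, pairF_one] }
  map_one' := by
    apply Equiv.ext
    intro p
    exact pairF_one hr P hP p
  map_mul' e e' := by
    apply Equiv.ext
    intro p
    exact pairF_mul hr P hP e e' p

/-- the action on sets of pairs -/
def rhoX : W H (rel r P) (restr ρ P hP) (rel_inv hr P hP) →*
    Equiv.Perm (Set (GP H (rel r P) × V)) :=
  (setPerm _).comp (pairPerm hr P hP)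

/-- the base points -/
def base (H : Type) [Group H] (r : V → V → Prop) (P : V → Prop) (v : V) :
    Set (GP H (rel r P) × V) := {p | p.1 ∈ link H r P v ∧ p.2 = v}

theorem mem_rhoX (e : W H (rel r P) (restr ρ P hP) (rel_inv hr P hP))
    (S : Set (GP H (rel r P) × V)) (p : GP H (rel r P) × V) :
    p ∈ rhoX hr P hP e S ↔ pairF hr P hP e⁻¹ p ∈ S := by
  change (pairPerm hr P hP e)⁻¹ p ∈ S ↔ _
  rw [← map_inv]
  rfl

theorem rhoX_emb (g : G) (v : V) :
    rhoX hr P hP (emb (H := H) (rel_inv hr P hP) g) (base H r P v) = base H r P (ρ g v) := by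
  ext p
  rw [mem_rhoX, ← map_inv]
  change (1 * act (restr ρ P hP) (rel_inv hr P hP) g⁻¹ p.1 ∈ link H r P v ∧ ρ g⁻¹ p.2 = v) ↔
    (p.1 ∈ link H r P (ρ g v) ∧ p.2 = ρ g v)
  rw [one_mul]
  constructor
  · rintro ⟨h1, h2⟩
    refine ⟨?_, ?_⟩
    · have h3 := link_act hr P hP g v h1
      rw [← MulAut.mul_apply, ← map_mul, mul_inv_cancel, map_one, MulAut.one_apply] at h3
      exact h3
    · rw [← h2, map_inv, ← Equiv.Perm.mul_apply, mul_inv_cancel, Equiv.Perm.one_apply]
  · rintro ⟨h1, h2⟩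
    refine ⟨?_, ?_⟩
    · have h3 := link_act hr P hP g⁻¹ _ h1
      rw [← Equiv.Perm.mul_apply, ← map_mul, inv_mul_cancel, map_one, Equiv.Perm.one_apply] at h3
      exact h3
    · rw [h2, ← Equiv.Perm.mul_apply, ← map_mul, inv_mul_cancel, map_one, Equiv.Perm.one_apply]

theorem rhoX_link (v : V) (w : {v // P v}) (hw : r v w.1 ∨ r w.1 v) (a : H) :
    rhoX hr P hP (of (rel_inv hr P hP) w a) (base H r P v) = base H r P v := by
  ext p
  rw [mem_rhoX, ← map_inv]
  have h1 : pairF hr P hP (of (rel_inv hr P hP) w a⁻¹) p = (GP.of H (rel r P) w a⁻¹ * p.1, p.2) := by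
    change ((GP.of H (rel r P) w a⁻¹) * act (restr ρ P hP) (rel_inv hr P hP) 1 p.1, ρ 1 p.2) = _
    rw [map_one, map_one]
    rfl
  rw [h1]
  have h2 : GP.of H (rel r P) w a⁻¹ ∈ link H r P v := Subgroup.subset_closure ⟨w, a⁻¹, hw, rfl⟩
  change (GP.of H (rel r P) w a⁻¹ * p.1 ∈ link H r P v ∧ p.2 = v) ↔ (p.1 ∈ link H r P v ∧ p.2 = v)
  rw [Subgroup.mul_mem_cancel_left _ h2]

theorem rhoX_base {e : W H (rel r P) (restr ρ P hP) (rel_inv hr P hP)} {v v' : V}
    (h : rhoX hr P hP e (base H r P v) = base H r P v') :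
    e.left ∈ link H r P v' ∧ ρ e.right v = v' := by
  have h1 : pairF hr P hP e (1, v) ∈ rhoX hr P hP e (base H r P v) := by
    rw [mem_rhoX, ← pairF_mul, inv_mul_cancel, pairF_one]
    exact ⟨one_mem _, rfl⟩
  rw [h] at h1
  have h2 : (e.left * act (restr ρ P hP) (rel_inv hr P hP) e.right 1 ∈ link H r P v') ∧
    ρ e.right v = v' := h1
  rw [map_one, mul_one] at h2
  exact h2

/-- elements of the link commute with the vertex group -/
theorem link_commute {v : V} {n : GP H (rel r P)} (hn : n ∈ link H r P v) (a : H) :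
    incl hr P hP (SemidirectProduct.inl n) * of hr v a =
      of hr v a * incl hr P hP (SemidirectProduct.inl n) := by
  have h1 : link H r P v ≤ (Subgroup.centralizer {of hr v a}).comap
      ((incl (H := H) hr P hP).comp SemidirectProduct.inl) := by
    rw [link, Subgroup.closure_le]
    rintro _ ⟨w, b, hw, rfl⟩
    rw [SetLike.mem_coe, Subgroup.mem_comap, Subgroup.mem_centralizer_iff]
    rintro _ rfl
    change of hr v a * incl hr P hP (of (rel_inv hr P hP) w b) =
      incl hr P hP (of (rel_inv hr P hP) w b) * of hr v a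
    rw [incl_of]
    rcases hw with hw | hw
    · exact of_commute hr hw a b
    · exact (of_commute hr hw b a).symm
  have h2 := h1 hn
  rw [Subgroup.mem_comap, Subgroup.mem_centralizer_iff] at h2
  exact (h2 _ rfl).symm

end remove

end W

end Pool.Agent.H44.GW
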