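import Pool.Agent.H44.GW.Remove

/-!
# Removing an independent set of vertices, continued; coloured graphs
-/

set_option autoImplicit false

namespace Pool.Agent.H44.GW

open Pool.Agent.H98.FJ

namespace InheritsExt

variable {C : (G : Type) → [Group G] → Prop} (hC : InheritsExt C)
include hC

variable {H : Type} [Group H]

open W in
/-- removing an independent set -/
theorem W_remove {V : Type} {r : V → V → Prop} {G : Type} [Group G] {ρ : G →* Equiv.Perm V}
    (hr : ∀ g v w, r v w → r (ρ g v) (ρ g w)) (hH : C H)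
    (P : V → Prop) (hP : ∀ g v, P v → P (ρ g v)) (hO : ∀ v w, ¬ P v → ¬ P w → ¬ r v w)
    (h : C (W H (rel r P) (restr ρ P hP) (rel_inv hr P hP))) : C (W H r ρ hr) := by
  classical
  let E : Type := W H (rel r P) (restr ρ P hP) (rel_inv hr P hP)
  let s : Set (GP H (rel r P) × V) → Set (GP H (rel r P) × V) → Prop := fun _ _ => False
  have hs : ∀ g v w, s v w → s (rhoX hr P hP g v) (rhoX hr P hP g w) := fun g v w h => h
  have hX : C (W H s (rhoX hr P hP) hs) := hC.W_free hs (fun v w h => h) hH h
  -- the left inverse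
  obtain ⟨Ψ, hΨ1, hΨ2⟩ := exists_liftOrbit (H := H) (ρ := rhoX hr P hP) hs (fun v w h => h)
    (incl (H := H) hr P hP) (base H r P) (of (H := H) hr) (by
      intro e v v' hv a
      obtain ⟨h1, h2⟩ := rhoX_base hr P hP hv
      have he : e = SemidirectProduct.inl e.left * SemidirectProduct.inr e.right :=
        (SemidirectProduct.inl_left_mul_inr_right e).symm
      rw [he, map_mul, mul_inv_rev]
      have h3 : incl (H := H) hr P hP (SemidirectProduct.inr e.right) = emb (H := H) hr e.right :=
        incl_emb hr P hP e.right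
      rw [h3]
      calc incl hr P hP (SemidirectProduct.inl e.left) * emb hr e.right * of hr v a *
            ((emb hr e.right)⁻¹ * (incl hr P hP (SemidirectProduct.inl e.left))⁻¹)
          = incl hr P hP (SemidirectProduct.inl e.left) *
            (emb hr e.right * of hr v a * (emb hr e.right)⁻¹) *
            (incl hr P hP (SemidirectProduct.inl e.left))⁻¹ := by group
        _ = of hr v' a := by
            rw [emb_conj, h2, link_commute hr P hP h1 a, mul_assoc, mul_inv_cancel, mul_one])
  -- the homomorphism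
  let f : V → H →* W H s (rhoX hr P hP) hs := fun v =>
    if hv : P v then (emb hs).comp (of (rel_inv hr P hP) ⟨v, hv⟩) else of hs (base H r P v)
  have hf1 : ∀ (v : V) (hv : P v) (a : H), f v a = emb hs (of (rel_inv hr P hP) ⟨v, hv⟩ a) := by
    intro v hv a
    change (if hv : P v then (emb hs).comp (of (rel_inv hr P hP) ⟨v, hv⟩)
      else of hs (base H r P v) : H →* _) a = _
    rw [dif_pos hv]
    rfl
  have hf2 : ∀ (v : V) (_ : ¬ P v) (a : H), f v a = of hs (base H r P v) a := by
    intro v hv a
    change (if hv : P v then (emb hs).comp (of (rel_inv hr P hP) ⟨v, hv⟩)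
      else of hs (base H r P v) : H →* _) a = _
    rw [dif_neg hv]
  let F : W H r ρ hr →* W H s (rhoX hr P hP) hs := lift hr f
    ((emb hs).comp (emb (rel_inv hr P hP)))
    (by
      intro v w hvw a b
      by_cases hv : P v
      · by_cases hw : P w
        · rw [hf1 v hv, hf1 w hw, ← map_mul, ← map_mul]
          congr 1
          exact of_commute _ (show rel r P ⟨v, hv⟩ ⟨w, hw⟩ from hvw) a b
        · rw [hf1 v hv, hf2 w hw]
          have h1 := emb_conj (H := H) (ρ := rhoX hr P hP) hs (of (rel_inv hr P hP) ⟨v, hv⟩ a) (base H r P w) b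
          rw [rhoX_link hr P hP w ⟨v, hv⟩ (Or.inr hvw) a, mul_inv_eq_iff_eq_mul] at h1
          exact h1
      · by_cases hw : P w
        · rw [hf2 v hv, hf1 w hw]
          have h1 := emb_conj (H := H) (ρ := rhoX hr P hP) hs (of (rel_inv hr P hP) ⟨w, hw⟩ b) (base H r P v) a
          rw [rhoX_link hr P hP v ⟨w, hw⟩ (Or.inl hvw) b, mul_inv_eq_iff_eq_mul] at h1
          exact h1.symm
        · exact absurd hvw (hO v w hv hw))
    (by
      intro g v a
      by_cases hv : P v
      · rw [hf1 v hv, hf1 _ (hP g v hv)]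
        change emb hs (emb (rel_inv hr P hP) g) * _ * (emb hs (emb (rel_inv hr P hP) g))⁻¹ = _
        rw [← map_mul, ← map_inv, ← map_mul, emb_conj]
        rfl
      · rw [hf2 v hv, hf2 _ (fun h => hv ((inv_iff P hP g v).1 h))]
        change emb hs (emb (rel_inv hr P hP) g) * _ * (emb hs (emb (rel_inv hr P hP) g))⁻¹ = _
        rw [emb_conj, rhoX_emb])
  refine hC.inherits.of_injective F ?_ hX
  refine injective_of hr F Ψ ?_ ?_
  · intro v a
    rw [lift_of]
    by_cases hv : P v
    · rw [hf1 v hv, hΨ2, incl_of]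
    · rw [hf2 v hv, hΨ1]
  · intro x
    rw [lift_emb]
    change Ψ (emb hs (emb (rel_inv hr P hP) x)) = _
    rw [hΨ2, incl_emb]

/-- graphs with an invariant proper colouring -/
theorem W_nat_colour {G : Type} [Group G] (hG : C G) (hH : C H) (n : ℕ) :
    ∀ (V : Type) (r : V → V → Prop) (ρ : G →* Equiv.Perm V)
      (hr : ∀ g v w, r v w → r (ρ g v) (ρ g w)) (c : V → ℕ), (∀ v, c v < n) →
      (∀ g v, c (ρ g v) = c v) → (∀ v w, r v w → c v ≠ c w) → C (W H r ρ hr) := by
  induction n with
  | zero =>
    intro V r ρ hr c hc _ _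
    exact hC.W_free hr (fun v w _ => absurd (hc v) (Nat.not_lt_zero _)) hH hG
  | succ n ih =>
    intro V r ρ hr c hc hinv hcol
    refine hC.W_remove hr hH (fun v => c v < n) ?_ ?_ ?_
    · intro g v hv
      rw [hinv]
      exact hv
    · intro v w hv hw hvw
      apply hcol v w hvw
      have h1 := hc v
      have h2 := hc w
      omega
    · exact ih _ _ _ _ (fun v => c v.1) (fun v => v.2) (fun g v => hinv g v.1)
        (fun v w hvw => hcol v.1 w.1 hvw)

/-- graphs with an invariant proper colouring with finitely many colours -/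
theorem W_colour {G : Type} [Group G] (hG : C G) (hH : C H) {V : Type} {r : V → V → Prop}
    {ρ : G →* Equiv.Perm V} (hr : ∀ g v w, r v w → r (ρ g v) (ρ g w)) {K : Type} [Finite K]
    (c : V → K) (hinv : ∀ g v, c (ρ g v) = c v) (hcol : ∀ v w, r v w → c v ≠ c w) :
    C (W H r ρ hr) := by
  obtain ⟨n, ⟨e⟩⟩ := Finite.exists_equiv_fin K
  refine hC.W_nat_colour hG hH n V r ρ hr (fun v => (e (c v) : ℕ)) (fun v => (e (c v)).2) ?_ ?_
  · intro g v
    rw [hinv]
  · intro v w hvw h
    exact hcol v w hvw (e.injective (Fin.ext h))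

end InheritsExt

end Pool.Agent.H44.GW
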