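import Pool.Agent.H44.GW.Hyper

/-!
# Ascending series of normal subgroups
-/

set_option autoImplicit false

namespace Pool.Agent.H44.GW

open Pool.Agent.H98.FJ

section series

variable (C : (G : Type) → [Group G] → Prop) {E : Type} [Group E]

/-- every group with an injective homomorphism to `E` is a member if its quotient by the preimage of `M` is -/
def PP (M : Subgroup E) : Prop :=
  ∀ (U : Type) [Group U] (f : U →* E), Function.Injective f →
    ∀ (Q : Type) [Group Q] (q : U →* Q), Function.Surjective q → q.ker = M.comap f → C Q → C U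

variable {C} (hC : InheritsExt C)
include hC

theorem PP_bot : PP C (⊥ : Subgroup E) := by
  intro U _ f hf Q _ q hq hk hQ
  refine hC.inherits.of_injective q ?_ hQ
  rw [injective_iff_map_eq_one]
  intro x hx
  have h1 : x ∈ q.ker := hx
  rw [hk, Subgroup.mem_comap, Subgroup.mem_bot] at h1
  exact hf (by rw [h1, map_one])

theorem PP_step (hsol : ∀ (G : Type) [Group G], Group.IsSolvable G → C G) (M M' : Subgroup E)
    [hM : M.Normal] (hMM : M ≤ M') (h : Ab (M'.map (QuotientGroup.mk' M)) ∨
      LF (M'.map (QuotientGroup.mk' M))) (hP : PP C M) : PP C M' := by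
  intro U _ f hf Q _ q hq hk hQ
  refine hP U f hf (U ⧸ M.comap f) (QuotientGroup.mk' _) (QuotientGroup.mk'_surjective _)
    (QuotientGroup.ker_mk' _) ?_
  have hle : M.comap f ≤ q.ker := by
    rw [hk]
    exact Subgroup.comap_mono hMM
  let q1 : (U ⧸ M.comap f) →* Q := QuotientGroup.lift (M.comap f) q (fun x hx => hle hx)
  have hq1 : Function.Surjective q1 := by
    intro y
    obtain ⟨x, rfl⟩ := hq y
    exact ⟨(x : U ⧸ M.comap f), rfl⟩
  let j : (U ⧸ M.comap f) →* (E ⧸ M) := QuotientGroup.map (M.comap f) M f le_rfl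
  have hj : Function.Injective j := by
    rw [injective_iff_map_eq_one]
    intro x
    induction x using QuotientGroup.induction_on with
    | H x =>
      intro hx
      have h1 : ((f x : E) : E ⧸ M) = 1 := hx
      exact (QuotientGroup.eq_one_iff x).2 ((QuotientGroup.eq_one_iff (f x)).1 h1)
  have hker : ∀ x : q1.ker, j x ∈ M'.map (QuotientGroup.mk' M) := by
    rintro ⟨x, hx⟩
    induction x using QuotientGroup.induction_on with
    | H x =>
      have h1 : x ∈ q.ker := hx
      rw [hk] at h1
      exact ⟨f x, h1, rfl⟩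
  let j' : q1.ker →* M'.map (QuotientGroup.mk' M) := (j.comp q1.ker.subtype).codRestrict _ hker
  have hj' : Function.Injective j' := by
    intro x y hxy
    exact Subtype.ext (hj (congrArg Subtype.val hxy))
  refine hC.onestep hsol q1 hq1 hQ ?_
  rcases h with h | h
  · exact Or.inl (h.of_injective j' hj')
  · exact Or.inr (h.of_injective j' hj')

theorem PP_union (c : Set (Subgroup E)) (hc : IsChain (· ≤ ·) c) (hne : c.Nonempty)
    (hn : ∀ M ∈ c, M.Normal) (hP : ∀ M ∈ c, PP C M) : PP C (sSup c) := by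
  intro U _ f hf Q _ q hq hk hQ
  refine hC.ext_cyclic q hq hQ ?_
  intro g
  obtain ⟨u, rfl⟩ := hq g
  let D : Subgroup U := (Subgroup.zpowers (q u)).comap q
  have hdir : DirectedOn (· ≤ ·) c := hc.directedOn
  have hmem : ∀ x : U, f x ∈ sSup c ↔ ∃ M ∈ c, f x ∈ M := fun x =>
    Subgroup.mem_sSup_of_directedOn hne hdir
  let ι : Type := Finset {m : U // f m ∈ sSup c}
  let L : ι → Subgroup U := fun s => Subgroup.closure (Subtype.val '' (s : Set {m : U // f m ∈ sSup c}) ∪ {u})
  have hLD : ∀ s, L s ≤ D := by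
    intro s
    rw [Subgroup.closure_le]
    rintro x (⟨m, _, rfl⟩ | hx)
    · have h1 : (m : U) ∈ q.ker := by
        rw [hk]
        exact m.2
      have h2 : q m = 1 := h1
      change q m ∈ Subgroup.zpowers (q u)
      rw [h2]
      exact one_mem _
    · rw [Set.mem_singleton_iff] at hx
      subst hx
      exact Subgroup.mem_zpowers (q x)
  -- the members of the system
  have hL : ∀ s, C (L s) := by
    intro s
    -- all elements of `s` lie in one member of the chain
    have hex : ∃ M ∈ c, ∀ m ∈ s, f (m : U) ∈ M := by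
      classical
      induction s using Finset.induction_on with
      | empty =>
        obtain ⟨M, hM⟩ := hne
        exact ⟨M, hM, fun m hm => absurd hm (Finset.notMem_empty m)⟩
      | insert a s _ ih =>
        obtain ⟨M, hM, h1⟩ := ih
        obtain ⟨M', hM', h2⟩ := (hmem a).1 a.2
        obtain ⟨M'', hM'', h3, h4⟩ := hdir M hM M' hM'
        refine ⟨M'', hM'', ?_⟩
        intro m hm
        rcases Finset.mem_insert.1 hm with rfl | hm
        · exact h4 h2
        · exact h3 (h1 m hm)
    obtain ⟨M, hM, hsM⟩ := hex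
    have hMn : M.Normal := hn M hM
    have hu : u ∈ L s := Subgroup.subset_closure (Or.inr rfl)
    refine hP M hM (L s) (f.comp (L s).subtype) (hf.comp (L s).subtype_injective)
      (L s ⧸ M.comap (f.comp (L s).subtype)) (QuotientGroup.mk' _)
      (QuotientGroup.mk'_surjective _) (QuotientGroup.ker_mk' _) ?_
    refine hC.cyclic ((⟨u, hu⟩ : L s) : L s ⧸ M.comap (f.comp (L s).subtype)) ?_
    intro x
    induction x using QuotientGroup.induction_on with
    | H x =>
      obtain ⟨x, hx⟩ := x
      have key : ∀ (y : U) (hy : y ∈ L s),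
          ((⟨y, hy⟩ : L s) : L s ⧸ M.comap (f.comp (L s).subtype)) ∈
          Subgroup.zpowers ((⟨u, hu⟩ : L s) : L s ⧸ M.comap (f.comp (L s).subtype)) := by
        intro y hy
        induction hy using Subgroup.closure_induction with
        | mem y hy' =>
          rcases hy' with ⟨m, hm, rfl⟩ | hy'
          · have h1 : ((⟨(m : U), Subgroup.subset_closure (Or.inl ⟨m, hm, rfl⟩)⟩ : L s) :
                L s ⧸ M.comap (f.comp (L s).subtype)) = 1 :=
              (QuotientGroup.eq_one_iff _).2 (hsM m hm)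
            rw [h1]
            exact one_mem _
          · rw [Set.mem_singleton_iff] at hy'
            subst hy'
            exact Subgroup.mem_zpowers _
        | one => exact one_mem _
        | mul y z hy hz h1 h2 => exact mul_mem h1 h2
        | inv y hy h1 => exact inv_mem h1
      exact key x hx
  -- the union
  refine hC.inherits.union (G := D) (ι := ι) (fun s => (L s).subgroupOf D) ?_ ?_ ?_
  · intro s t hst
    refine Subgroup.comap_mono (Subgroup.closure_mono ?_)
    exact Set.union_subset_union_left _ (Set.image_mono (Finset.coe_subset.2 hst))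
  · rintro ⟨d, hd⟩
    obtain ⟨k, hk'⟩ := Subgroup.mem_zpowers_iff.1 (Subgroup.mem_comap.1 hd)
    have h1 : d * (u ^ k)⁻¹ ∈ q.ker := by
      rw [MonoidHom.mem_ker, map_mul, map_inv, map_zpow, hk', mul_inv_cancel]
    rw [hk, Subgroup.mem_comap] at h1
    refine ⟨{⟨d * (u ^ k)⁻¹, h1⟩}, ?_⟩
    rw [Subgroup.mem_subgroupOf]
    have h2 : d * (u ^ k)⁻¹ ∈ L {⟨d * (u ^ k)⁻¹, h1⟩} :=
      Subgroup.subset_closure (Or.inl ⟨⟨d * (u ^ k)⁻¹, h1⟩, Finset.mem_singleton_self _, rfl⟩)
    have h3 : u ∈ L {⟨d * (u ^ k)⁻¹, h1⟩} := Subgroup.subset_closure (Or.inr rfl)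
    have h4 := mul_mem h2 (zpow_mem h3 k)
    rw [inv_mul_cancel_right] at h4
    exact h4
  · intro s
    exact hC.iso _ _ (Subgroup.subgroupOfEquivOfLe (hLD s)).symm (hL s)

/-- Extensions with kernel `N`: if every smaller normal subgroup `M` of `E` can be enlarged inside `N` by an abelian or
locally finite factor, then `E` is a member if `E ⧸ N` is. -/
theorem hyper_mem (hsol : ∀ (G : Type) [Group G], Group.IsSolvable G → C G) (N : Subgroup E)
    [hN : N.Normal]
    (h : ∀ (M : Subgroup E) [M.Normal], M < N → ∃ M' : Subgroup E, M'.Normal ∧ M < M' ∧ M' ≤ N ∧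
      (Ab (M'.map (QuotientGroup.mk' M)) ∨ LF (M'.map (QuotientGroup.mk' M))))
    (hQ : C (E ⧸ N)) : C E := by
  let S : Set (Subgroup E) := {M | M.Normal ∧ M ≤ N ∧ PP C M}
  have hz : ∃ m, Maximal (· ∈ S) m := by
    refine zorn_le₀ S ?_
    intro c hcS hc
    by_cases hne : c.Nonempty
    · refine ⟨sSup c, ⟨?_, ?_, ?_⟩, fun z hz => le_sSup hz⟩
      · refine ⟨?_⟩
        intro n hn g
        obtain ⟨M, hM, hnM⟩ := (Subgroup.mem_sSup_of_directedOn hne hc.directedOn).1 hn
        exact (Subgroup.mem_sSup_of_directedOn hne hc.directedOn).2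
          ⟨M, hM, (hcS hM).1.conj_mem n hnM g⟩
      · exact sSup_le (fun M hM => (hcS hM).2.1)
      · exact PP_union hC c hc hne (fun M hM => (hcS hM).1) (fun M hM => (hcS hM).2.2)
    · refine ⟨⊥, ⟨inferInstance, bot_le, PP_bot hC⟩, ?_⟩
      intro z hz
      exact absurd ⟨z, hz⟩ hne
  obtain ⟨M, ⟨hMn, hMN, hPM⟩, hmax⟩ := hz
  have hM : M = N := by
    by_contra hne
    obtain ⟨M', hM'n, h1, h2, h3⟩ := h M (lt_of_le_of_ne hMN hne)
    have h4 : M' ∈ S := ⟨hM'n, h2, PP_step hC hsol M M' h1.le h3 hPM⟩
    exact absurd (hmax h4 h1.le) (not_le_of_gt h1)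
  rw [hM] at hPM
  exact hPM E (MonoidHom.id E) Function.injective_id (E ⧸ N) (QuotientGroup.mk' N)
    (QuotientGroup.mk'_surjective N) (QuotientGroup.ker_mk' N) hQ

end series

end Pool.Agent.H44.GW
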