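import Pool.Agent.H44.GW.Local

/-!
# Ascending series with locally inner factors
-/

set_option autoImplicit false

namespace Pool.Agent.H44.GW

open Pool.Agent.H98.FJ

/-- conjugations act on the subgroup `A` by locally inner automorphisms -/
def LocInn {E : Type} [Group E] (A : Subgroup E) : Prop :=
  ∀ (e : E) (s : Set E), s.Finite → s ⊆ A → ∃ a ∈ A, ∀ x ∈ s, e * x * e⁻¹ = a * x * a⁻¹

section series

variable {C : (G : Type) → [Group G] → Prop} (hC : InheritsExt C) {E : Type} [Group E]
include hC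

theorem PP_stepLI (M M' : Subgroup E) [hM : M.Normal] (hMM : M ≤ M')
    (hm : C (M'.map (QuotientGroup.mk' M))) (h : LocInn (M'.map (QuotientGroup.mk' M)))
    (hP : PP C M) : PP C M' := by
  intro U _ f hf Q _ q hq hk hQ
  refine hP U f hf (U ⧸ M.comap f) (QuotientGroup.mk' _) (QuotientGroup.mk'_surjective _)
    (QuotientGroup.ker_mk' _) ?_
  have hle : M.comap f ≤ q.ker := by
    rw [hk]
    exact Subgroup.comap_mono hMM
  let q1 : (U ⧸ M.comap f) →* Q := QuotientGroup.lift (M.comap f) q (fun x hx => hle hx)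
  have hq1 : Function.Surjective q1 := by
    intro y
    obtain ⟨x, rfl⟩ := hq y
    exact ⟨(x : U ⧸ M.comap f), rfl⟩
  let j : (U ⧸ M.comap f) →* (E ⧸ M) := QuotientGroup.map (M.comap f) M f le_rfl
  have hj : Function.Injective j := by
    rw [injective_iff_map_eq_one]
    intro x
    induction x using QuotientGroup.induction_on with
    | H x =>
      intro hx
      have h1 : ((f x : E) : E ⧸ M) = 1 := hx
      exact (QuotientGroup.eq_one_iff x).2 ((QuotientGroup.eq_one_iff (f x)).1 h1)
  have hker : ∀ x : q1.ker, j x ∈ M'.map (QuotientGroup.mk' M) := by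
    rintro ⟨x, hx⟩
    induction x using QuotientGroup.induction_on with
    | H x =>
      have h1 : x ∈ q.ker := hx
      rw [hk] at h1
      exact ⟨f x, h1, rfl⟩
  let j' : q1.ker →* M'.map (QuotientGroup.mk' M) := (j.comp q1.ker.subtype).codRestrict _ hker
  have hj' : Function.Injective j' := by
    intro x y hxy
    exact Subtype.ext (hj (congrArg Subtype.val hxy))
  refine hC.onestep_local q1 hq1 hQ (hC.inherits.of_injective j' hj' hm) ?_
  intro u s hs
  obtain ⟨a, ha, h1⟩ := h (j u) ((fun x : q1.ker => j x) '' s) (hs.image _) (by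
    rintro _ ⟨x, _, rfl⟩
    exact hker x)
  refine ⟨M'.map (QuotientGroup.mk' M), inferInstance, j', ⟨a, ha⟩, hm, hj', ?_⟩
  intro x hx
  apply Subtype.ext
  change j ((MulAut.conjNormal u x : q1.ker) : U ⧸ M.comap f) = a * j x * a⁻¹
  rw [MulAut.conjNormal_apply, map_mul, map_mul, map_inv]
  exact h1 _ ⟨x, hx, rfl⟩

/-- Extensions with kernel `N`: if every smaller normal subgroup `M` of `E` can be enlarged inside `N` by a factor which
is abelian, or locally finite, or a member on which `E` acts by locally inner automorphisms, then `E` is a member if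
`E ⧸ N` is. -/
theorem hyper2_mem (hsol : ∀ (G : Type) [Group G], Group.IsSolvable G → C G) (N : Subgroup E)
    [hN : N.Normal]
    (h : ∀ (M : Subgroup E) [M.Normal], M < N → ∃ M' : Subgroup E, M'.Normal ∧ M < M' ∧ M' ≤ N ∧
      (Ab (M'.map (QuotientGroup.mk' M)) ∨ LF (M'.map (QuotientGroup.mk' M)) ∨
        (C (M'.map (QuotientGroup.mk' M)) ∧ LocInn (M'.map (QuotientGroup.mk' M)))))
    (hQ : C (E ⧸ N)) : C E := by
  let S : Set (Subgroup E) := {M | M.Normal ∧ M ≤ N ∧ PP C M}
  have hz : ∃ m, Maximal (· ∈ S) m := by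
    refine zorn_le₀ S ?_
    intro c hcS hc
    by_cases hne : c.Nonempty
    · refine ⟨sSup c, ⟨?_, ?_, ?_⟩, fun z hz => le_sSup hz⟩
      · refine ⟨?_⟩
        intro n hn g
        obtain ⟨M, hM, hnM⟩ := (Subgroup.mem_sSup_of_directedOn hne hc.directedOn).1 hn
        exact (Subgroup.mem_sSup_of_directedOn hne hc.directedOn).2
          ⟨M, hM, (hcS hM).1.conj_mem n hnM g⟩
      · exact sSup_le (fun M hM => (hcS hM).2.1)
      · exact PP_union hC c hc hne (fun M hM => (hcS hM).1) (fun M hM => (hcS hM).2.2)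
    · refine ⟨⊥, ⟨inferInstance, bot_le, PP_bot hC⟩, ?_⟩
      intro z hz
      exact absurd ⟨z, hz⟩ hne
  obtain ⟨M, ⟨hMn, hMN, hPM⟩, hmax⟩ := hz
  have hM : M = N := by
    by_contra hne
    obtain ⟨M', hM'n, h1, h2, h3⟩ := h M (lt_of_le_of_ne hMN hne)
    have h4 : M' ∈ S := by
      refine ⟨hM'n, h2, ?_⟩
      rcases h3 with h3 | h3 | h3
      · exact PP_step hC hsol M M' h1.le (Or.inl h3) hPM
      · exact PP_step hC hsol M M' h1.le (Or.inr h3) hPM
      · exact PP_stepLI hC M M' h1.le h3.1 h3.2 hPM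
    exact absurd (hmax h4 h1.le) (not_le_of_gt h1)
  rw [hM] at hPM
  exact hPM E (MonoidHom.id E) Function.injective_id (E ⧸ N) (QuotientGroup.mk' N)
    (QuotientGroup.mk'_surjective N) (QuotientGroup.ker_mk' N) hQ

end series

end Pool.Agent.H44.GW
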