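import Pool.Agent.H44.GW.Perm

/-!
# Free products permuted by a group, the general case
-/

set_option autoImplicit false

namespace Pool.Agent.H44.GW

open Pool.Agent.H98.FJ

/-- a family of groups: one group `A` and copies of `H` -/
def OF (A H V : Type) : Option V → Type
  | none => A
  | some _ => H

instance instOF (A H V : Type) [Group A] [Group H] : (i : Option V) → Group (OF A H V i)
  | none => inferInstanceAs (Group A)
  | some _ => inferInstanceAs (Group H)

/-- the group `A` in the free product -/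
def ofA (A H V : Type) [Group A] [Group H] : A →* Monoid.CoprodI (OF A H V) :=
  Monoid.CoprodI.of (M := OF A H V) (i := none)

/-- the copies of `H` in the free product -/
def ofH (A H V : Type) [Group A] [Group H] (v : V) : H →* Monoid.CoprodI (OF A H V) :=
  Monoid.CoprodI.of (M := OF A H V) (i := some v)

/-- homomorphisms out of the free product -/
def liftOF (A H V : Type) [Group A] [Group H] {K : Type} [Group K] (f : A →* K) (g : V → H →* K) :
    Monoid.CoprodI (OF A H V) →* K :=
  Monoid.CoprodI.lift (fun i => match i with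
    | none => f
    | some v => g v)

@[simp]
theorem liftOF_A (A H V : Type) [Group A] [Group H] {K : Type} [Group K] (f : A →* K)
    (g : V → H →* K) (a : A) : liftOF A H V f g (ofA A H V a) = f a :=
  Monoid.CoprodI.lift_of _ _

@[simp]
theorem liftOF_H (A H V : Type) [Group A] [Group H] {K : Type} [Group K] (f : A →* K)
    (g : V → H →* K) (v : V) (a : H) : liftOF A H V f g (ofH A H V v a) = g v a :=
  Monoid.CoprodI.lift_of _ _

namespace InheritsExt

variable {C : (G : Type) → [Group G] → Prop} (hC : InheritsExt C)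
include hC

variable {H : Type} [Group H] {V : Type} {r : V → V → Prop}

theorem coprod_OF {A H V : Type} [Group A] [Group H] (hA : C A) (hH : C H) :
    C (Monoid.CoprodI (OF A H V)) := by
  refine hC.inherits.coprodI ?_
  intro i
  cases i
  · exact hA
  · exact hH

/-- the group acts freely outside of a subset -/
theorem W_split {G : Type} [Group G] {ρ : G →* Equiv.Perm V}
    (hr : ∀ g v w, r v w → r (ρ g v) (ρ g w)) (h0 : ∀ v w, ¬ r v w) (hH : C H)
    (P : V → Prop) (hP : ∀ g v, P v → P (ρ g v))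
    (hfree : ∀ g v, ¬ P v → ρ g v = v → g = 1)
    (h : C (W H (W.rel r P) (restr ρ P hP) (W.rel_inv hr P hP))) : C (W H r ρ hr) := by
  classical
  -- representatives of the orbits
  let s : Setoid V :=
    { r := fun v w => ∃ g, ρ g v = w
      iseqv :=
        { refl := fun v => ⟨1, by simp⟩
          symm := by
            rintro v _ ⟨g, rfl⟩
            exact ⟨g⁻¹, by simp⟩
          trans := by
            rintro v _ _ ⟨g, rfl⟩ ⟨g', rfl⟩
            exact ⟨g' * g, by simp⟩ } }
  let rep : V → V := fun v => (Quotient.mk s v).out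
  have hrep : ∀ v, ∃ g, ρ g (rep v) = v := fun v => Quotient.mk_out (s := s) v
  have hrep2 : ∀ g v, rep (ρ g v) = rep v := by
    intro g v
    have h1 : Quotient.mk s (ρ g v) = Quotient.mk s v := Quotient.sound ⟨g⁻¹, by simp⟩
    change (Quotient.mk s (ρ g v)).out = (Quotient.mk s v).out
    rw [h1]
  choose κ hκ using hrep
  have hκ2 : ∀ g v, ¬ P v → κ (ρ g v) = g * κ v := by
    intro g v hv
    have h1 : ¬ P (rep v) := by
      intro h2
      apply hv
      rw [← hκ v]
      exact hP _ _ h2
    have h2 := hfree ((g * κ v)⁻¹ * κ (ρ g v)) (rep v) h1 (by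
      rw [map_mul, Equiv.Perm.mul_apply]
      have h3 : ρ (κ (ρ g v)) (rep v) = ρ g v := by
        have h4 := hκ (ρ g v)
        rw [hrep2] at h4
        exact h4
      rw [h3, mul_inv_rev, map_mul, Equiv.Perm.mul_apply]
      rw [map_inv, map_inv, Equiv.Perm.inv_eq_iff_eq, Equiv.Perm.inv_eq_iff_eq, hκ])
    exact (inv_mul_eq_one.1 h2).symm
  let A : Type := W H (W.rel r P) (restr ρ P hP) (W.rel_inv hr P hP)
  let T : G →* Monoid.CoprodI (OF A H V) := (ofA A H V).comp (W.emb (W.rel_inv hr P hP))
  let f : V → H →* Monoid.CoprodI (OF A H V) := fun v =>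
    if hv : P v then (ofA A H V).comp (W.of (W.rel_inv hr P hP) ⟨v, hv⟩)
    else (MulAut.conj (T (κ v))).toMonoidHom.comp (ofH A H V (rep v))
  have hf1 : ∀ (v : V) (hv : P v) (a : H), f v a = ofA A H V (W.of (W.rel_inv hr P hP) ⟨v, hv⟩ a) := by
    intro v hv a
    change (if hv : P v then (ofA A H V).comp (W.of (W.rel_inv hr P hP) ⟨v, hv⟩)
      else (MulAut.conj (T (κ v))).toMonoidHom.comp (ofH A H V (rep v)) : H →* _) a = _
    rw [dif_pos hv]
    rfl
  have hf2 : ∀ (v : V) (_ : ¬ P v) (a : H), f v a =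
      T (κ v) * ofH A H V (rep v) a * (T (κ v))⁻¹ := by
    intro v hv a
    change (if hv : P v then (ofA A H V).comp (W.of (W.rel_inv hr P hP) ⟨v, hv⟩)
      else (MulAut.conj (T (κ v))).toMonoidHom.comp (ofH A H V (rep v)) : H →* _) a = _
    rw [dif_neg hv]
    rfl
  let F : W H r ρ hr →* Monoid.CoprodI (OF A H V) := W.lift hr f T
    (fun v w h => absurd h (h0 v w))
    (fun g v a => by
      by_cases hv : P v
      · rw [hf1 v hv, hf1 _ (hP g v hv)]
        change ofA A H V _ * ofA A H V _ * (ofA A H V _)⁻¹ = _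
        rw [← map_mul, ← map_inv, ← map_mul, W.emb_conj]
        rfl
      · rw [hf2 v hv, hf2 _ (fun h => hv ((W.inv_iff P hP g v).1 h)), hκ2 g v hv, hrep2, map_mul]
        group)
  refine hC.inherits.of_injective F ?_ (hC.coprod_OF h hH)
  refine W.injective_of hr F (liftOF A H V (W.incl hr P hP) (W.of hr)) ?_ ?_
  · intro v a
    rw [W.lift_of]
    by_cases hv : P v
    · rw [hf1 v hv, liftOF_A, W.incl_of]
    · rw [hf2 v hv, map_mul, map_mul, map_inv, liftOF_H]
      change liftOF A H V _ _ (ofA A H V _) * _ * (liftOF A H V _ _ (ofA A H V _))⁻¹ = _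
      rw [liftOF_A, W.incl_emb, W.emb_conj, hκ]
  · intro x
    rw [W.lift_emb]
    change liftOF A H V _ _ (ofA A H V _) = _
    rw [liftOF_A, W.incl_emb]

/-- a free product permuted by the infinite cyclic group -/
theorem W_freeZ {ρ : Multiplicative ℤ →* Equiv.Perm V}
    (hr : ∀ g v w, r v w → r (ρ g v) (ρ g w)) (h0 : ∀ v w, ¬ r v w) (hH : C H) :
    C (W H r ρ hr) := by
  refine hC.W_split hr h0 hH
    (fun v => ∃ M : ℕ, M ≠ 0 ∧ ρ (Multiplicative.ofAdd (M : ℤ)) v = v) ?_ ?_ ?_
  · rintro g v ⟨M, hM, hv⟩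
    refine ⟨M, hM, ?_⟩
    rw [← Equiv.Perm.mul_apply, ← map_mul, mul_comm, map_mul, Equiv.Perm.mul_apply, hv]
  · intro g v hv hg
    by_contra hne
    obtain ⟨k, rfl⟩ := Multiplicative.ofAdd.surjective g
    have hk : k ≠ 0 := fun h => hne (by rw [h]; rfl)
    refine hv ⟨k.natAbs, Int.natAbs_ne_zero.2 hk, ?_⟩
    rcases Int.natAbs_eq k with h1 | h1
    · rw [← h1, hg]
    · have h2 : ((k.natAbs : ℕ) : ℤ) = -k := by omega
      rw [h2, ofAdd_neg, map_inv, Equiv.Perm.inv_eq_iff_eq, hg]
  · refine hC.W_finiteOrbits _ (fun v w => h0 v.1 w.1) hH ?_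
    rintro ⟨v, M, hM, hv⟩
    exact ⟨M, hM, Subtype.ext hv⟩

/-- a free product permuted by a member of the class -/
theorem W_free {G : Type} [Group G] {ρ : G →* Equiv.Perm V}
    (hr : ∀ g v w, r v w → r (ρ g v) (ρ g w)) (h0 : ∀ v w, ¬ r v w) (hH : C H) (hG : C G) :
    C (W H r ρ hr) :=
  hC.W_cyclic hr hG (fun _ => hC.W_freeZ _ h0 hH)

end InheritsExt

end Pool.Agent.H44.GW
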